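import Mathlib

namespace Pool.Agent.P.MP_460c01_lc

/-- Finite trees over the ranked alphabet `(A, rk)`. -/
abbrev RTree (A : Type) (rk : A → ℕ) : Type := WType (fun a : A => Fin (rk a))

/-- Trees over the ranked alphabet `(B, rk)` whose leaves may also be elements of `X`. -/
inductive Rhs (B : Type) (rk : B → ℕ) (X : Type) : Type
  | var : X → Rhs B rk X
  | node : (b : B) → (Fin (rk b) → Rhs B rk X) → Rhs B rk X

/-- Replace each leaf `x` by the tree `ρ x`; undefined if some leaf that occurs is undefined. -/
def Rhs.subst {B : Type} {rk : B → ℕ} {X : Type} (ρ : X → Option (RTree B rk)) :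
    Rhs B rk X → Option (RTree B rk)
  | .var x => ρ x
  | .node b g =>
    if h : ∀ i, (Rhs.subst ρ (g i)).isSome then
      some (WType.mk b (fun i => (Rhs.subst ρ (g i)).get (h i)))
    else none

/-- A deterministic top-down tree transducer with state set `Q`. -/
structure DT (A : Type) (rA : A → ℕ) (B : Type) (rB : B → ℕ) (Q : Type) : Type where
  init : Q
  rule : Q → (a : A) → Option (Rhs B rB (Q × Fin (rA a)))

/-- The output of state `q` on an input tree. -/
def DT.run {A : Type} {rA : A → ℕ} {B : Type} {rB : B → ℕ} {Q : Type} (M : DT A rA B rB Q) :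
    RTree A rA → Q → Option (RTree B rB)
  | WType.mk a f, q =>
    (M.rule q a).bind (fun ζ => ζ.subst (fun p => DT.run M (f p.2) p.1))

end Pool.Agent.P.MP_460c01_lc
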