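import Pool.Agent.P.MP_460c01_lc.Defs

namespace Pool.Agent.P.MP_460c01_lc

/-- The state that the deterministic bottom-up tree automaton with transition function `δ`
reaches on a tree. -/
def laState {A : Type} {rA : A → ℕ} {P : Type} (δ : (a : A) → (Fin (rA a) → P) → P) :
    RTree A rA → P
  | WType.mk a f => δ a (fun i => laState δ (f i))

/-- A deterministic top-down tree transducer with state set `Q` and regular look-ahead: the rule
applied at a node may depend on the look-ahead states (in `P`) of the children of the node. -/
structure DTR (A : Type) (rA : A → ℕ) (B : Type) (rB : B → ℕ) (Q P : Type) : Type where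
  init : Q
  rule : Q → (a : A) → (Fin (rA a) → P) → Option (Rhs B rB (Q × Fin (rA a)))

/-- The output of state `q` on an input tree, the look-ahead being computed by `δ`. -/
def DTR.run {A : Type} {rA : A → ℕ} {B : Type} {rB : B → ℕ} {Q P : Type}
    (M : DTR A rA B rB Q P) (δ : (a : A) → (Fin (rA a) → P) → P) :
    RTree A rA → Q → Option (RTree B rB)
  | WType.mk a f, q =>
    (M.rule q a (fun i => laState δ (f i))).bind
      (fun ζ => ζ.subst (fun p => DTR.run M δ (f p.2) p.1))

/-- The set of subtrees of a tree (the tree itself included). -/
def subtrees {A : Type} {rA : A → ℕ} : RTree A rA → Set (RTree A rA)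
  | WType.mk a f => insert (WType.mk a f) (⋃ i, subtrees (f i))

/-- `N` is a test size for `m` look-ahead states and `n₁`, `n₂` states: over all finite ranked
alphabets, for every bottom-up automaton `δ` with `m` states and every set `F` of its states,
transducers with look-ahead `δ` and with `n₁` and `n₂` states that agree on all accepted trees
with at most `N` distinct subtrees agree on all accepted trees. -/
def TestSize (m n₁ n₂ N : ℕ) : Prop :=
  ∀ (A : Type) [Finite A] (rA : A → ℕ) (B : Type) [Finite B] (rB : B → ℕ)
    (δ : (a : A) → (Fin (rA a) → Fin m) → Fin m) (F : Set (Fin m))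
    (M₁ : DTR A rA B rB (Fin n₁) (Fin m)) (M₂ : DTR A rA B rB (Fin n₂) (Fin m)),
    (∀ s : RTree A rA, laState δ s ∈ F → (subtrees s).ncard ≤ N →
      M₁.run δ s M₁.init = M₂.run δ s M₂.init) →
    ∀ s : RTree A rA, laState δ s ∈ F → M₁.run δ s M₁.init = M₂.run δ s M₂.init

end Pool.Agent.P.MP_460c01_lc
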