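import Pool.Agent.P.MP_460c01_lc.Low

namespace Pool.Agent.P.MP_460c01_lc

theorem low_one {n₁ n₂ H : ℕ} (h1 : 1 ≤ n₁) (h2 : 1 ≤ n₂) (hG : Good n₁ n₂ H) : 1 ≤ H := by
  by_contra hc
  have := hG.apply (rA := fun _ : Unit => 0) (rB := rO 0) (by simpa using h1) (by simpa using h2)
    (⟨(), fun _ _ => some (lf false)⟩ : DT _ _ _ _ Unit) (⟨(), fun _ _ => none⟩ : DT _ _ _ _ Unit)
    (fun s hs => absurd (WType.depth_pos s) (by omega)) (WType.mk () Fin.elim0)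
  simp [DT.run, subst_lf] at this

theorem low_pow {n₁ n₂ H : ℕ} (h1 : 1 ≤ n₁) (h2 : 1 ≤ n₂) (hG : Good n₁ n₂ H) :
    2 ^ n₁ ≤ 2 * H := by
  obtain ⟨c, rfl⟩ := Nat.exists_eq_add_of_le' h1
  rcases Nat.eq_zero_or_pos c with rfl | hc
  · have := low_one h1 h2 hG
    omega
  have h3 : 2 ≤ 2 ^ c := Nat.le_self_pow hc.ne' 2
  have hb : ∀ τ ≤ 2 ^ c - 2, ∀ i, (τ + 1).testBit i = true → i < c := fun τ hτ i hi =>
    (Nat.pow_lt_pow_iff_right one_lt_two).1 ((Nat.ge_two_pow_of_testBit hi).trans_lt (by omega))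
  have hne : ∀ τ, ∃ j : Fin c, (τ + 1).testBit j = true ∨ 2 ^ c - 2 < τ := by
    intro τ
    by_cases h : τ ≤ 2 ^ c - 2
    · obtain ⟨i, hi⟩ := Nat.exists_testBit_of_ne_zero (Nat.succ_ne_zero τ)
      exact ⟨⟨i, hb τ h i hi⟩, Or.inl hi⟩
    · exact ⟨⟨0, hc⟩, Or.inr (by omega)⟩
  choose u hu using hne
  have := low_def (m := 2 ^ c - 2) (fun τ => {j : Fin c | (τ + 1).testBit j = true ∨ 2 ^ c - 2 < τ})
    u u hu hu (fun τ hτ τ' hτ' h => by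
      have : τ + 1 ≤ τ' + 1 := Nat.le_of_testBit fun i hi =>
        (h (a := ⟨i, hb τ hτ i hi⟩) (Or.inl hi)).resolve_right (by omega)
      omega) le_rfl h2 hG
  rw [pow_succ]
  omega

theorem low_mul {c n₁ n₂ H : ℕ} (h1 : c + 3 ≤ n₁) (h2 : c + 3 ≤ n₂) (hG : Good n₁ n₂ H) :
    (c + 1) * 2 ^ c ≤ H := by
  have h0 : 0 < 2 ^ c := by positivity
  have h3 : 0 < (c + 1) * 2 ^ c := by positivity
  let w : ℕ → Fin (c + 1) := fun τ => ⟨τ / 2 ^ c % (c + 1), Nat.mod_lt _ c.succ_pos⟩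
  have hw : ∀ τ ≤ (c + 1) * 2 ^ c - 1, (w τ : ℕ) = τ / 2 ^ c := fun τ hτ =>
    Nat.mod_eq_of_lt ((Nat.div_lt_iff_lt_mul h0).2 (by omega))
  have := low_ne (m := (c + 1) * 2 ^ c - 1)
    (fun τ => {j : Fin (c + 2) | j = 0 ∨ j = (w τ).succ ∨
      ∃ i : Fin c, (τ % 2 ^ c).testBit i = true ∧ j = ((w τ).succAbove i).succ})
    (fun _ => 0) (fun τ => (w τ).succ) (fun _ => Or.inl rfl) (fun _ => Or.inr (Or.inl rfl))
    (fun _ _ => (Fin.succ_ne_zero _).symm) (fun τ hτ τ' hτ' h e => by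
      have e1 : w τ = w τ' := Fin.succ_injective _ e
      have e2 : τ / 2 ^ c = τ' / 2 ^ c := by rw [← hw τ hτ, ← hw τ' hτ', e1]
      have e3 : τ % 2 ^ c ≤ τ' % 2 ^ c := Nat.le_of_testBit fun i hi => by
        have hi' : i < c := (Nat.pow_lt_pow_iff_right one_lt_two).1
          ((Nat.ge_two_pow_of_testBit hi).trans_lt (Nat.mod_lt _ h0))
        rcases h (Or.inr (Or.inr ⟨⟨i, hi'⟩, hi, rfl⟩)) with c1 | c1 | ⟨i', c1, c2⟩
        · exact absurd c1 (Fin.succ_ne_zero _)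
        · exact absurd ((Fin.succ_injective _ c1).trans e1.symm) (Fin.succAbove_ne _ _)
        · have := Fin.succ_injective _ c2
          rw [← e1] at this
          rwa [← Fin.succAbove_right_injective this] at c1
      rw [← Nat.div_add_mod τ (2 ^ c), ← Nat.div_add_mod τ' (2 ^ c), e2]
      omega) h1 h2 hG
  omega

theorem lower_le {n₁ n₂ H : ℕ} (h1 : 1 ≤ n₁) (hn : n₁ ≤ n₂) (hG : Good n₁ n₂ H) :
    2 ^ n₂ + n₁ * 2 ^ n₁ ≤ 14 * H := by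
  have h2 := low_pow (h1.trans hn) h1 hG.symm
  have h3 : 2 ^ n₁ ≤ 2 ^ n₂ := Nat.pow_le_pow_right (by norm_num) hn
  by_cases hc : n₁ ≤ 2
  · have := Nat.mul_le_mul_right (2 ^ n₁) hc
    omega
  · obtain ⟨c, rfl⟩ := Nat.exists_eq_add_of_le' (show 3 ≤ n₁ by omega)
    have h4 := low_mul le_rfl hn hG
    have h5 : (c + 3) * 2 ^ (c + 3) = 8 * ((c + 1) * 2 ^ c) + 2 * 2 ^ (c + 3) := by ring
    omega

theorem good_bound (n₁ n₂ : ℕ) :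
    Good n₁ n₂ (4 * (2 ^ max n₁ n₂ + min n₁ n₂ * 2 ^ min n₁ n₂)) := by
  rcases le_total n₁ n₂ with h | h
  · rw [max_eq_right h, min_eq_left h]
    exact fun A _ rA B _ rB M₁ M₂ hag => upper_le h M₁ M₂ hag
  · rw [max_eq_left h, min_eq_right h]
    exact Good.symm fun A _ rA B _ rB M₁ M₂ hag => upper_le h M₁ M₂ hag

theorem sharp_order (n₁ n₂ : ℕ) (h₁ : 1 ≤ n₁) (h₂ : 1 ≤ n₂) :
    ∃ h, IsLeast {H | Good n₁ n₂ H} h ∧
      2 ^ max n₁ n₂ + min n₁ n₂ * 2 ^ min n₁ n₂ ≤ 14 * h ∧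
      h ≤ 4 * (2 ^ max n₁ n₂ + min n₁ n₂ * 2 ^ min n₁ n₂) := by
  have hm : Good n₁ n₂ (sInf {H | Good n₁ n₂ H}) :=
    Nat.sInf_mem (s := {H | Good n₁ n₂ H}) ⟨_, good_bound n₁ n₂⟩
  refine ⟨_, ⟨hm, fun H hH => Nat.sInf_le hH⟩, ?_, Nat.sInf_le (good_bound n₁ n₂)⟩
  rcases le_total n₁ n₂ with h | h
  · rw [max_eq_right h, min_eq_left h]
    exact lower_le h₁ h hm
  · rw [max_eq_left h, min_eq_right h]
    exact lower_le h₂ h hm.symm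

end Pool.Agent.P.MP_460c01_lc
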