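import Pool.Agent.P.MP_460c01_lc.DgMain
import Pool.Agent.P.MP_460c01_lc.Sharp

namespace Pool.Agent.P.MP_460c01_lc.Dg

variable {A : Type} {rA : A → ℕ} {B : Type} {rB : B → ℕ} {Q : Type}

/-- one more unary symbol, for padding -/
def rP (rA : A → ℕ) : Option A → ℕ
  | none => 1
  | some a => rA a

/-- counts the padding symbols on top of a tree up to `k`; `k + 1` is a sink -/
def dP (rA : A → ℕ) (k : ℕ) : (x : Option A) → (Fin (rP rA x) → Fin (k + 2)) → Fin (k + 2)
  | none, ps => if (ps ⟨0, Nat.one_pos⟩ : ℕ) = k + 1 then Fin.last _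
      else ⟨min (ps ⟨0, Nat.one_pos⟩ + 1) k, by omega⟩
  | some _, ps => if ∀ i, (ps i : ℕ) = k then 0 else Fin.last _

def strip : RTree (Option A) (rP rA) → RTree A rA
  | WType.mk none f => strip (f ⟨0, Nat.one_pos⟩)
  | WType.mk (some a) f => WType.mk a (fun i => strip (f i))

def hash (t : RTree (Option A) (rP rA)) : RTree (Option A) (rP rA) := WType.mk none (fun _ => t)

def pad (k : ℕ) : RTree A rA → RTree (Option A) (rP rA)
  | WType.mk a f => hash^[k] (WType.mk (some a) (fun i => pad k (f i)))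

theorem strip_hash (j : ℕ) (t : RTree (Option A) (rP rA)) : strip (hash^[j] t) = strip t := by
  induction j with
  | zero => rfl
  | succ j ih => rw [Function.iterate_succ_apply']; exact ih

theorem strip_pad (k : ℕ) (s : RTree A rA) : strip (pad k s) = s := by
  induction s with
  | mk a f ih =>
    show strip (hash^[k] _) = _
    rw [strip_hash]
    show WType.mk a (fun i => strip (pad k (f i))) = _
    exact congrArg _ (funext ih)

/-- the state as a number -/
def sv (k : ℕ) (t : RTree (Option A) (rP rA)) : ℕ := (laState (dP rA k) t).val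

theorem st_none (k : ℕ) (f : Fin (rP rA none) → RTree (Option A) (rP rA)) :
    sv k (WType.mk none f) =
      if sv k (f ⟨0, Nat.one_pos⟩) = k + 1 then k + 1
      else min (sv k (f ⟨0, Nat.one_pos⟩) + 1) k := by
  show ((if sv k (f ⟨0, Nat.one_pos⟩) = k + 1 then Fin.last _
      else ⟨min (sv k (f ⟨0, Nat.one_pos⟩) + 1) k, by omega⟩ : Fin (k + 2)).val) = _
  split_ifs <;> rfl

theorem st_some (k : ℕ) (a : A) (f : Fin (rP rA (some a)) → RTree (Option A) (rP rA)) :
    sv k (WType.mk (some a) f) = if ∀ i, sv k (f i) = k then 0 else k + 1 := by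
  show ((if ∀ i, sv k (f i) = k then 0 else Fin.last _ : Fin (k + 2)).val) = _
  split_ifs <;> rfl

theorem st_hash (k j : ℕ) (hj : j ≤ k) (t : RTree (Option A) (rP rA))
    (ht : sv k t = 0) : sv k (hash^[j] t) = j := by
  induction j with
  | zero => exact ht
  | succ j ih =>
    rw [Function.iterate_succ_apply']
    have h := ih (by omega)
    refine (st_none k (fun _ => hash^[j] t)).trans ?_
    rw [h, if_neg (by omega)]
    omega

theorem st_pad (k : ℕ) (s : RTree A rA) : sv k (pad k s) = k := by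
  induction s with
  | mk a f ih =>
    refine st_hash k k le_rfl _ ((st_some k a (fun i => pad k (f i))).trans ?_)
    exact if_pos ih

theorem depth_strip (k : ℕ) (t : RTree (Option A) (rP rA))
    (ht : sv k t ≤ k) :
    sv k t + (k + 1) * (strip t).depth ≤ t.depth + k := by
  induction t with
  | mk x f ih =>
    cases x with
    | none =>
      have h1 := st_none k f
      have h2 := depth_lt (rA := rP rA) none f ⟨0, Nat.one_pos⟩
      have h3 : sv k (f ⟨0, Nat.one_pos⟩) < k + 2 := (laState (dP rA k) (f ⟨0, Nat.one_pos⟩)).2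
      have h4 : strip (WType.mk none f) = strip (f ⟨0, Nat.one_pos⟩) := rfl
      split_ifs at h1 with c
      · omega
      · have := ih ⟨0, Nat.one_pos⟩ (by omega)
        rw [h4]
        omega
    | some a =>
      have h1 := st_some k a f
      split_ifs at h1 with c
      · have h2 := WType.depth_pos (β := fun x : Option A => Fin (rP rA x)) (WType.mk (some a) f)
        have h3 : (strip (WType.mk (some a) f)).depth ≤
            ((WType.mk (some a) f : RTree (Option A) (rP rA)).depth - 1) / (k + 1) + 1 := by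
          refine depth_mk_le (a := a) (g := fun i => strip (f i)) fun i => ?_
          rw [Nat.le_div_iff_mul_le k.succ_pos, mul_comm]
          have h4 := ih i (c i).le
          have h5 := depth_lt (rA := rP rA) (some a) f i
          have h6 := c i
          show (k + 1) * (strip (f i)).depth ≤ _
          omega
        have h4 := Nat.mul_le_mul_left (k + 1) h3
        have h5 := Nat.mul_div_le
          ((WType.mk (some a) f : RTree (Option A) (rP rA)).depth - 1) (k + 1)
        rw [mul_add, mul_one] at h4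
        omega
      · omega

def padT (P : Type) (M : DT A rA B rB Q) : DTR (Option A) (rP rA) B rB Q P where
  init := M.init
  rule := fun q x _ => match x with
    | none => some (.var (q, ⟨0, Nat.one_pos⟩))
    | some a => M.rule q a

theorem padT_run {P : Type} (M : DT A rA B rB Q)
    (δ : (x : Option A) → (Fin (rP rA x) → P) → P) (t : RTree (Option A) (rP rA)) (q : Q) :
    (padT P M).run δ t q = M.run (strip t) q := by
  induction t generalizing q with
  | mk x f ih =>
    cases x with
    | none => exact ih ⟨0, Nat.one_pos⟩ q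
    | some a =>
      show (M.rule q a).bind (fun ζ => ζ.subst (fun p => (padT P M).run δ (f p.2) p.1)) =
        (M.rule q a).bind (fun ζ => ζ.subst (fun p => M.run (strip (f p.2)) p.1))
      congr 1
      funext ζ
      congr 1
      funext p
      exact ih _ _

theorem good_of_pad {k n₁ n₂ N : ℕ} (h : TestSize (k + 2) n₁ n₂ N) :
    Good n₁ n₂ (N / (k + 1)) := by
  intro A _ rA B _ rB M₁ M₂ hag s
  have := h (Option A) (rP rA) B rB (dP rA k) {p | p.val = k} (padT _ M₁) (padT _ M₂)
    (fun t ht hN => by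
      rw [padT_run, padT_run]
      apply hag
      have h1 : sv k t = k := ht
      have h2 := depth_strip k t h1.le
      have h3 := depth_le_card t
      rw [Nat.le_div_iff_mul_le k.succ_pos, mul_comm]
      show (k + 1) * (strip t).depth ≤ N
      omega) (pad k s) (st_pad k s)
  rwa [padT_run, padT_run, strip_pad] at this

theorem good_of_one {n₁ n₂ N : ℕ} (h : TestSize 1 n₁ n₂ N) : Good n₁ n₂ N := by
  intro A _ rA B _ rB M₁ M₂ hag s
  have := h A rA B rB (fun _ _ => 0) Set.univ (ofDT _ M₁) (ofDT _ M₂)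
    (fun t _ hN => by
      rw [ofDT_run, ofDT_run]
      exact hag t ((depth_le_card t).trans hN)) s (Set.mem_univ _)
  rwa [ofDT_run, ofDT_run] at this

theorem testSize_bound (m n₁ n₂ : ℕ) :
    TestSize m n₁ n₂ (4 * m * (2 ^ max n₁ n₂ + min n₁ n₂ * 2 ^ min n₁ n₂)) :=
  fun _ _ _ _ _ _ δ F M₁ M₂ hag s hs => dag_bound δ F M₁ M₂ hag s hs

theorem testSize_lower {m n₁ n₂ N : ℕ} (hm : 1 ≤ m) (h₁ : 1 ≤ n₁) (h₂ : 1 ≤ n₂)
    (h : TestSize m n₁ n₂ N) :
    m * (2 ^ max n₁ n₂ + min n₁ n₂ * 2 ^ min n₁ n₂) ≤ 28 * N := by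
  obtain ⟨h0, h3, h4, -⟩ := sharp_order n₁ n₂ h₁ h₂
  generalize 2 ^ max n₁ n₂ + min n₁ n₂ * 2 ^ min n₁ n₂ = g at h4 ⊢
  rcases Nat.eq_or_lt_of_le hm with rfl | hm
  · have := h3.2 (good_of_one h)
    omega
  · obtain ⟨k, rfl⟩ := Nat.exists_eq_add_of_le' (show 2 ≤ m from hm)
    have h5 := h3.2 (good_of_pad h)
    have h6 := Nat.mul_div_le N (k + 1)
    have h7 : (k + 1) * g ≤ (k + 1) * (14 * (N / (k + 1))) :=
      Nat.mul_le_mul_left _ (by omega)
    have h8 : (k + 2) * g ≤ 2 * ((k + 1) * g) := by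
      rw [← mul_assoc]; exact Nat.mul_le_mul_right _ (by omega)
    have h9 : (k + 1) * (14 * (N / (k + 1))) = 14 * ((k + 1) * (N / (k + 1))) := by ring
    omega

theorem dag_order (m n₁ n₂ : ℕ) (hm : 1 ≤ m) (h₁ : 1 ≤ n₁) (h₂ : 1 ≤ n₂) :
    ∃ N, IsLeast {N | TestSize m n₁ n₂ N} N ∧
      m * (2 ^ max n₁ n₂ + min n₁ n₂ * 2 ^ min n₁ n₂) ≤ 28 * N ∧
      N ≤ 4 * m * (2 ^ max n₁ n₂ + min n₁ n₂ * 2 ^ min n₁ n₂) := by
  have h : TestSize m n₁ n₂ (sInf {N | TestSize m n₁ n₂ N}) :=
    Nat.sInf_mem (s := {N | TestSize m n₁ n₂ N}) ⟨_, testSize_bound m n₁ n₂⟩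
  exact ⟨_, ⟨h, fun N hN => Nat.sInf_le hN⟩, testSize_lower hm h₁ h₂ h,
    Nat.sInf_le (testSize_bound m n₁ n₂)⟩

theorem ht_le (ht : RTree A rA → ℕ)
    (h : ∀ (a : A) (f : Fin (rA a) → RTree A rA) (n : ℕ), (∀ i, ht (f i) ≤ n) →
      ht (WType.mk a f) ≤ n + 1) (s : RTree A rA) : ht s ≤ s.depth := by
  induction s with
  | mk a f ih =>
    exact h a f (Finset.univ.sup fun i => (f i).depth) fun i =>
      (ih i).trans (Finset.le_sup (f := fun i => (f i).depth) (Finset.mem_univ i))

theorem finite_depth [Finite A] (N : ℕ) : {s : RTree A rA | s.depth ≤ N}.Finite := by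
  induction N with
  | zero =>
    refine Set.finite_empty.subset fun s hs => ?_
    exact absurd (WType.depth_pos s) (not_lt.2 hs)
  | succ N ih =>
    refine (Set.finite_iUnion fun a : A => (Set.Finite.pi' (fun _ : Fin (rA a) => ih)).image
      (fun f => (WType.mk a f : RTree A rA))).subset ?_
    rintro ⟨a, f⟩ hs
    refine Set.mem_iUnion.2 ⟨a, f, fun i => ?_, rfl⟩
    have h1 := depth_lt a f i
    have h2 : (WType.mk a f : RTree A rA).depth ≤ N + 1 := hs
    show (f i).depth ≤ N
    omega

end Pool.Agent.P.MP_460c01_lc.Dg
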