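import Pool.Agent.P.MP_460c01_lc.Defs

namespace Pool.Agent.P.MP_460c01_lc

/-- `H` is a test height for `n₁` and `n₂` states: over all finite ranked alphabets, transducers
with `n₁` and `n₂` states that agree on all input trees of height at most `H` are equivalent. -/
def Good (n₁ n₂ H : ℕ) : Prop :=
  ∀ (A : Type) [Finite A] (rA : A → ℕ) (B : Type) [Finite B] (rB : B → ℕ)
    (M₁ : DT A rA B rB (Fin n₁)) (M₂ : DT A rA B rB (Fin n₂)),
    (∀ s : RTree A rA, s.depth ≤ H → M₁.run s M₁.init = M₂.run s M₂.init) →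
    ∀ s : RTree A rA, M₁.run s M₁.init = M₂.run s M₂.init

end Pool.Agent.P.MP_460c01_lc
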