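import Pool.Agent.P.MP_460c01_lc.DgSat
import Pool.Agent.P.MP_460c01_lc.GDefs

namespace Pool.Agent.P.MP_460c01_lc.Dg

variable {A : Type} {rA : A → ℕ} {B : Type} {rB : B → ℕ} {Q Q1 Q2 P X Y : Type}

/-- symbols annotated with the look-ahead states of the children -/
abbrev An (rA : A → ℕ) (P : Type) : Type := Σ a : A, (Fin (rA a) → P)

abbrev rAn (rA : A → ℕ) (P : Type) : An rA P → ℕ := fun x => rA x.1

def ann (δ : (a : A) → (Fin (rA a) → P) → P) : RTree A rA → RTree (An rA P) (rAn rA P)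
  | WType.mk a f => WType.mk (⟨a, fun i => laState δ (f i)⟩ : An rA P) (fun i => ann δ (f i))

def er : RTree (An rA P) (rAn rA P) → RTree A rA
  | WType.mk x f => WType.mk x.1 (fun i => er (f i))

theorem er_ann (δ : (a : A) → (Fin (rA a) → P) → P) (s : RTree A rA) : er (ann δ s) = s := by
  induction s with
  | mk a f ih => simp only [ann, er, ih]

def lift (M : DTR A rA B rB Q P) : DT (An rA P) (rAn rA P) B rB Q where
  init := M.init
  rule := fun q x => M.rule q x.1 x.2

theorem run_ann (M : DTR A rA B rB Q P) (δ : (a : A) → (Fin (rA a) → P) → P) (s : RTree A rA)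
    (q : Q) : (lift M).run (ann δ s) q = M.run δ s q := by
  induction s generalizing q with
  | mk a f ih =>
    simp only [ann, DT.run, DTR.run, lift]
    congr 1
    funext ζ
    congr 1
    funext p
    exact ih _ _

def chk (δ : (a : A) → (Fin (rA a) → P) → P) : TA (An rA P) (rAn rA P) P where
  ok := fun p x => δ x.1 x.2 = p
  nx := fun _ x j => x.2 j

theorem chk_ann (δ : (a : A) → (Fin (rA a) → P) → P) (s : RTree A rA) :
    (chk δ).L (ann δ s) (laState δ s) := by
  induction s with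
  | mk a f ih => exact ⟨rfl, ih⟩

theorem mk_congr (a : A) {ps ps' : Fin (rA a) → P}
    {f f' : Fin (rA a) → RTree (An rA P) (rAn rA P)} (h1 : ps = ps') (h2 : f = f') :
    (WType.mk (⟨a, ps⟩ : An rA P) f : RTree (An rA P) (rAn rA P)) =
      WType.mk (⟨a, ps'⟩ : An rA P) f' := by
  subst h1
  subst h2
  rfl

theorem chk_L (δ : (a : A) → (Fin (rA a) → P) → P) (u : RTree (An rA P) (rAn rA P)) (p : P)
    (h : (chk δ).L u p) : laState δ (er u) = p ∧ ann δ (er u) = u := by
  induction u generalizing p with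
  | mk x f ih =>
    obtain ⟨a, ps⟩ := x
    have h1 : (fun i => laState δ (er (f i))) = ps := funext fun i => (ih i _ (h.2 i)).1
    have h2 : (fun i => ann δ (er (f i))) = f := funext fun i => (ih i _ (h.2 i)).2
    constructor
    · show δ a (fun i => laState δ (er (f i))) = p
      rw [h1]
      exact h.1
    · exact mk_congr a h1 h2

def prod (T : TA A rA X) (U : TA A rA Y) : TA A rA (X × Y) where
  ok := fun z a => T.ok z.1 a ∧ U.ok z.2 a
  nx := fun z a j => (T.nx z.1 a j, U.nx z.2 a j)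

theorem prod_L (T : TA A rA X) (U : TA A rA Y) (s : RTree A rA) (x : X) (y : Y) :
    (prod T U).L s (x, y) ↔ T.L s x ∧ U.L s y := by
  induction s generalizing x y with
  | mk a f ih =>
    constructor
    · rintro ⟨h1, h2⟩
      exact ⟨⟨h1.1, fun j => ((ih j _ _).1 (h2 j)).1⟩, h1.2, fun j => ((ih j _ _).1 (h2 j)).2⟩
    · rintro ⟨h1, h2⟩
      exact ⟨⟨h1.1, h2.1⟩, fun j => (ih j _ _).2 ⟨h1.2 j, h2.2 j⟩⟩

theorem sub_er (u : RTree (An rA P) (rAn rA P)) : subtrees (er u) ⊆ er '' subtrees u := by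
  induction u with
  | mk x f ih =>
    intro v hv
    rcases hv with hv | hv
    · exact ⟨_, self_mem _, hv.symm⟩
    · obtain ⟨i, hi⟩ := Set.mem_iUnion.1 hv
      obtain ⟨w, h1, h2⟩ := ih i hi
      exact ⟨w, Or.inr (Set.mem_iUnion.2 ⟨i, h1⟩), h2⟩

theorem card_er (u : RTree (An rA P) (rAn rA P)) :
    (subtrees (er u)).ncard ≤ (subtrees u).ncard :=
  (Set.ncard_le_ncard (sub_er u) ((sub_finite u).image _)).trans
    (Set.ncard_image_le (sub_finite u))

theorem dom_one (M : DT A rA B rB Q) (s : RTree A rA) (q : Q) :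
    M.dom.L s {q} ↔ (M.run s q).isSome := by
  rw [DT.dom_L]
  simp only [Set.mem_singleton_iff, forall_eq]

theorem out_eq [Fintype Q1] [Fintype Q2] [Fintype P] (δ : (a : A) → (Fin (rA a) → P) → P)
    (M1 : DTR A rA B rB Q1 P) (M2 : DTR A rA B rB Q2 P) (q1 : Q1) (q2 : Q2) (s : RTree A rA)
    (hag : ∀ u : RTree A rA, laState δ u = laState δ s → (subtrees u).ncard ≤
      Fintype.card P * 2 ^ Fintype.card Q1 * (Fintype.card Q1 + Fintype.card Q2 + 1) →
      M1.run δ u q1 = M2.run δ u q2) (hs : (M1.run δ s q1).isSome) :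
    M1.run δ s q1 = M2.run δ s q2 := by
  classical
  obtain ⟨W, w1, w2, w3, w4⟩ := sat (prod (chk δ) (lift M1).dom)
    (tot (sumDT (lift M1) (lift M2))) (one_child _)
  rw [Fintype.card_prod, Fintype.card_set, Fintype.card_sum] at w3
  have e : Eqn (VW (prod (chk δ) (lift M1).dom) (tot (sumDT (lift M1) (lift M2))) W
      (laState δ s, {q1})) (.var (some (Sum.inl q1))) (.var (some (Sum.inr q2))) := by
    rintro w ⟨u, u1, u2, rfl⟩
    obtain ⟨u3, u4⟩ := (prod_L _ _ _ _ _).1 u2
    obtain ⟨u5, u6⟩ := chk_L δ u _ u3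
    obtain ⟨t, ht⟩ := Option.isSome_iff_exists.1 ((dom_one _ _ _).1 u4)
    have h1 := hag (er u) u5
      ((card_er u).trans ((Set.ncard_le_ncard (sub_subset w2 u u1) w1).trans w3))
    rw [← run_ann, ← run_ann, u6] at h1
    have ht' : (lift M2).run u q2 = some t := by rw [← h1, ht]
    rw [← sum_inl (lift M1) (lift M2), run_eq] at ht
    rw [← sum_inr (lift M1) (lift M2), run_eq] at ht'
    show tot _ u (Sum.inl q1) = tot _ u (Sum.inr q2)
    rw [eq_emb _ _ ht, eq_emb _ _ ht']
  have : tot (sumDT (lift M1) (lift M2)) (ann δ s) (Sum.inl q1) =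
      tot (sumDT (lift M1) (lift M2)) (ann δ s) (Sum.inr q2) :=
    (w4 (ann δ s) _ ((prod_L _ _ _ _ _).2
      ⟨chk_ann δ s, (dom_one _ _ _).2 (by rw [run_ann]; exact hs)⟩)).2 _ _ e
  rw [← run_ann, ← run_ann, ← sum_inl (lift M1) (lift M2), ← sum_inr (lift M1) (lift M2),
    run_eq, run_eq, this]

theorem dom_eq [Fintype Q1] [Fintype Q2] [Fintype P] (δ : (a : A) → (Fin (rA a) → P) → P)
    (M1 : DTR A rA B rB Q1 P) (M2 : DTR A rA B rB Q2 P) (q1 : Q1) (q2 : Q2) (s : RTree A rA)
    (hag : ∀ u : RTree A rA, laState δ u = laState δ s → (subtrees u).ncard ≤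
      2 * (Fintype.card P * 2 ^ Fintype.card Q1 + Fintype.card P * 2 ^ Fintype.card Q2) →
      M1.run δ u q1 = M2.run δ u q2) (hs : (M2.run δ s q2).isSome) :
    (M1.run δ s q1).isSome := by
  classical
  have := moore ((prod (chk δ) (lift M1).dom).sum (prod (chk δ) (lift M2).dom))
    (x := Sum.inr (laState δ s, {q2})) (y := Sum.inl (laState δ s, {q1})) (fun u hu => by
      rw [TA.sum_l, TA.sum_r, prod_L, prod_L, dom_one, dom_one]
      refine and_congr_right fun u3 => ?_
      obtain ⟨u5, u6⟩ := chk_L δ u _ u3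
      rw [Fintype.card_sum, Fintype.card_prod, Fintype.card_prod, Fintype.card_set,
        Fintype.card_set] at hu
      have h1 := hag (er u) u5 ((card_er u).trans hu)
      rw [← run_ann, ← run_ann, u6] at h1
      rw [h1]) (ann δ s) (by
      rw [TA.sum_r, prod_L, dom_one, run_ann]
      exact ⟨chk_ann δ s, hs⟩)
  rw [TA.sum_l, prod_L, dom_one, run_ann] at this
  exact this.2

theorem upper_le {m n₁ n₂ : ℕ} (hn : n₁ ≤ n₂) (δ : (a : A) → (Fin (rA a) → Fin m) → Fin m)
    (M₁ : DTR A rA B rB (Fin n₁) (Fin m)) (M₂ : DTR A rA B rB (Fin n₂) (Fin m)) (s : RTree A rA)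
    (hag : ∀ u : RTree A rA, laState δ u = laState δ s →
      (subtrees u).ncard ≤ 4 * m * (2 ^ n₂ + n₁ * 2 ^ n₁) →
      M₁.run δ u M₁.init = M₂.run δ u M₂.init) :
    M₁.run δ s M₁.init = M₂.run δ s M₂.init := by
  have h1 : 2 ^ n₁ ≤ 2 ^ n₂ := Nat.pow_le_pow_right (by norm_num) hn
  by_cases c : (M₁.run δ s M₁.init).isSome
  · refine out_eq δ M₁ M₂ _ _ s (fun u h0 hu => hag u h0 (hu.trans ?_)) c
    simp only [Fintype.card_fin]
    obtain ⟨d, rfl⟩ := Nat.exists_eq_add_of_le hn
    have h2 : d + 1 ≤ 2 ^ d := Nat.lt_two_pow_self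
    have h3 : 2 ^ n₁ * (d + 1) ≤ 2 ^ (n₁ + d) := by
      rw [pow_add]; exact Nat.mul_le_mul_left _ h2
    have h4 : 2 ^ n₁ * (n₁ + (n₁ + d) + 1) = 2 * (n₁ * 2 ^ n₁) + 2 ^ n₁ * (d + 1) := by ring
    rw [mul_assoc, mul_comm 4 m, mul_assoc]
    exact Nat.mul_le_mul_left _ (by omega)
  · have c' : ¬ (M₂.run δ s M₂.init).isSome := fun c' => c (dom_eq δ M₁ M₂ _ _ s
      (fun u h0 hu => hag u h0 (hu.trans (by
        simp only [Fintype.card_fin]
        rw [← mul_add, ← mul_assoc, mul_comm 2 m, mul_comm 4 m, mul_assoc, mul_assoc]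
        exact Nat.mul_le_mul_left _ (by omega)))) c')
    rw [Option.not_isSome_iff_eq_none] at c c'
    rw [c, c']

theorem dag_bound {m n₁ n₂ : ℕ} (δ : (a : A) → (Fin (rA a) → Fin m) → Fin m) (F : Set (Fin m))
    (M₁ : DTR A rA B rB (Fin n₁) (Fin m)) (M₂ : DTR A rA B rB (Fin n₂) (Fin m))
    (hag : ∀ s : RTree A rA, laState δ s ∈ F →
      (subtrees s).ncard ≤ 4 * m * (2 ^ max n₁ n₂ + min n₁ n₂ * 2 ^ min n₁ n₂) →
      M₁.run δ s M₁.init = M₂.run δ s M₂.init) (s : RTree A rA) (hs : laState δ s ∈ F) :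
    M₁.run δ s M₁.init = M₂.run δ s M₂.init := by
  rcases le_total n₁ n₂ with h | h
  · rw [max_eq_right h, min_eq_left h] at hag
    exact upper_le h δ M₁ M₂ s fun u h0 hu => hag u (h0 ▸ hs) hu
  · rw [max_eq_left h, min_eq_right h] at hag
    exact (upper_le h δ M₂ M₁ s fun u h0 hu => (hag u (h0 ▸ hs) hu).symm).symm

theorem depth_lt (a : A) (f : Fin (rA a) → RTree A rA) (i : Fin (rA a)) :
    (f i).depth < (WType.mk a f : RTree A rA).depth := by
  show (f i).depth < Finset.univ.sup (fun i => (f i).depth) + 1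
  exact Nat.lt_succ_of_le (Finset.le_sup (f := fun i => (f i).depth) (Finset.mem_univ i))

/-- the height of a tree is at most the number of its distinct subtrees -/
theorem depth_le_card (s : RTree A rA) : s.depth ≤ (subtrees s).ncard := by
  have hd : ∀ s u : RTree A rA, u ∈ subtrees s → u.depth ≤ s.depth := by
    intro s
    induction s with
    | mk a f ih =>
      intro u hu
      rcases hu with hu | hu
      · exact hu ▸ le_rfl
      · obtain ⟨i, hi⟩ := Set.mem_iUnion.1 hu
        exact (ih i u hi).trans (depth_lt a f i).le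
  induction s with
  | mk a f ih =>
    have h1 : (WType.mk a f : RTree A rA) ∉ ⋃ i, subtrees (f i) := by
      intro h
      obtain ⟨i, hi⟩ := Set.mem_iUnion.1 h
      exact absurd (hd _ _ hi) (not_le.2 (depth_lt a f i))
    have h2 : (⋃ i, subtrees (f i)).Finite := Set.finite_iUnion fun i => sub_finite _
    rw [sub_mk, Set.ncard_insert_of_notMem h1 h2]
    exact depth_mk_le fun i =>
      (ih i).trans (Set.ncard_le_ncard (Set.subset_iUnion (fun i => subtrees (f i)) i) h2)

/-- a transducer without look-ahead, read as one that ignores its look-ahead -/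
def ofDT (P : Type) (M : DT A rA B rB Q) : DTR A rA B rB Q P where
  init := M.init
  rule := fun q a _ => M.rule q a

theorem ofDT_run (M : DT A rA B rB Q) (δ : (a : A) → (Fin (rA a) → P) → P) (s : RTree A rA)
    (q : Q) : (ofDT P M).run δ s q = M.run s q := by
  induction s generalizing q with
  | mk a f ih =>
    simp only [DT.run, DTR.run, ofDT]
    congr 1
    funext ζ
    congr 1
    funext p
    exact ih _ _

end Pool.Agent.P.MP_460c01_lc.Dg
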