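import Pool.Agent.P.MP_460c01_lc.Up
import Pool.Agent.P.MP_460c01_lc.DgDefs

namespace Pool.Agent.P.MP_460c01_lc.Dg

variable {A : Type} {rA : A → ℕ} {B : Type} {rB : B → ℕ} {Q X : Type}

theorem sub_mk (a : A) (f : Fin (rA a) → RTree A rA) :
    subtrees (WType.mk a f : RTree A rA) = insert (WType.mk a f) (⋃ i, subtrees (f i)) := rfl

theorem sub_finite (s : RTree A rA) : (subtrees s).Finite := by
  induction s with
  | mk a f ih => rw [sub_mk]; exact (Set.finite_iUnion ih).insert _

theorem self_mem (s : RTree A rA) : s ∈ subtrees s := by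
  cases s with
  | mk a f => rw [sub_mk]; exact Set.mem_insert _ _

def Closed (W : Set (RTree A rA)) : Prop :=
  ∀ (a : A) (f : Fin (rA a) → RTree A rA), (WType.mk a f : RTree A rA) ∈ W → ∀ i, f i ∈ W

theorem sub_subset {W : Set (RTree A rA)} (hW : Closed W) (s : RTree A rA) (hs : s ∈ W) :
    subtrees s ⊆ W := by
  induction s with
  | mk a f ih =>
    rw [sub_mk]
    exact Set.insert_subset hs (Set.iUnion_subset fun i => ih i (hW a f hs i))

theorem closed_insert {W : Set (RTree A rA)} (hW : Closed W) {a : A}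
    {g : Fin (rA a) → RTree A rA} (hg : ∀ i, g i ∈ W) :
    Closed (insert (WType.mk a g : RTree A rA) W) := by
  intro a' f' h i
  rcases h with h | h
  · cases h
    exact Or.inr (hg i)
  · exact Or.inr (hW a' f' h i)

def VW (T : TA A rA X) (val : RTree A rA → Q → Rhs B rB Unit) (W : Set (RTree A rA)) (x : X) :
    Set (Q → Rhs B rB Unit) :=
  {w | ∃ u ∈ W, T.L u x ∧ val u = w}

theorem VW_mono (T : TA A rA X) (val : RTree A rA → Q → Rhs B rB Unit)
    {W W' : Set (RTree A rA)} (h : W ⊆ W') (x : X) : VW T val W x ⊆ VW T val W' x := by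
  rintro w ⟨u, h1, h2⟩
  exact ⟨u, h h1, h2⟩

theorem sat_exists [Fintype X] [Fintype Q] (T : TA A rA X)
    (val : RTree A rA → Q → Rhs B rB Unit) :
    ∃ W : Set (RTree A rA), W.Finite ∧ Closed W ∧
      W.ncard ≤ Fintype.card X * (Fintype.card Q + 1) ∧
      ∀ (a : A) (g : Fin (rA a) → RTree A rA) (x : X), (∀ i, g i ∈ W) →
        T.L (WType.mk a g) x → (VW T val W x).Nonempty ∧
          ∀ t t', Eqn (VW T val W x) t t' →
            ev (val (WType.mk a g)) t = ev (val (WType.mk a g)) t' := by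
  classical
  let Φ : Set (RTree A rA) → ℕ := fun W => ∑ x : X, pot (VW T val W x)
  have hΦ : ∀ W, Φ W ≤ Fintype.card X * (Fintype.card Q + 1) := by
    intro W
    have := Finset.sum_le_card_nsmul Finset.univ (fun x : X => pot (VW T val W x))
      (Fintype.card Q + 1) (fun D _ => pot_le _)
    simpa using this
  let S : Set ℕ := {n | ∃ W : Set (RTree A rA), W.Finite ∧ Closed W ∧ W.ncard ≤ n ∧ Φ W = n}
  have hS : S.Finite := (Set.finite_Iic _).subset fun n ⟨W, _, _, _, h⟩ => h ▸ hΦ W
  have hne : S.Nonempty :=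
    ⟨Φ ∅, ∅, Set.finite_empty, fun _ _ h => h.elim, by simp, rfl⟩
  obtain ⟨n, ⟨W, h1, h2, h3, h4⟩, hmax⟩ := Set.exists_max_image S id hS hne
  refine ⟨W, h1, h2, h3.trans (h4 ▸ hΦ W), ?_⟩
  intro a g x hg hx
  have hsub : W ⊆ insert (WType.mk a g : RTree A rA) W := Set.subset_insert _ _
  have hle : pot (VW T val (insert (WType.mk a g : RTree A rA) W) x) ≤ pot (VW T val W x) := by
    by_contra hlt
    have h5 : Φ W < Φ (insert (WType.mk a g : RTree A rA) W) :=
      Finset.sum_lt_sum (fun D _ => pot_mono (VW_mono T val hsub D))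
        ⟨x, Finset.mem_univ _, not_le.1 hlt⟩
    have h6 := Set.ncard_insert_le (WType.mk a g : RTree A rA) W
    have h7 := hmax _ ⟨_, h1.insert _, closed_insert h2 hg, (by omega :
      (insert (WType.mk a g : RTree A rA) W).ncard ≤ Φ (insert (WType.mk a g : RTree A rA) W)), rfl⟩
    simp only [id] at h7
    omega
  have hm : val (WType.mk a g) ∈ VW T val (insert (WType.mk a g : RTree A rA) W) x :=
    ⟨_, Set.mem_insert _ _, hx, rfl⟩
  unfold pot at hle
  rw [if_pos ⟨_, hm⟩] at hle
  by_cases c : (VW T val W x).Nonempty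
  · rw [if_pos c] at hle
    exact ⟨c, fun t t' he => eqn_of_rnk (VW_mono T val hsub x) c (by omega) he _ hm⟩
  · rw [if_neg c] at hle
    omega

theorem sat [Fintype X] [Fintype Q] (T : TA A rA X) (val : RTree A rA → Q → Rhs B rB Unit)
    (hone : ∀ (a : A) (g : Fin (rA a) → RTree A rA) (j : Fin (rA a)) (t : Rhs B rB (Option Q)),
      ∃ tj : Rhs B rB (Option Q), ∀ s,
        ev (val s) tj = ev (val (WType.mk a (Function.update g j s))) t) :
    ∃ W : Set (RTree A rA), W.Finite ∧ Closed W ∧
      W.ncard ≤ Fintype.card X * (Fintype.card Q + 1) ∧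
      ∀ (s : RTree A rA) (x : X), T.L s x → (VW T val W x).Nonempty ∧
        ∀ t t', Eqn (VW T val W x) t t' → ev (val s) t = ev (val s) t' := by
  obtain ⟨W, h1, h2, h3, hst⟩ := sat_exists T val
  refine ⟨W, h1, h2, h3, fun s => ?_⟩
  induction s with
  | mk a f ih =>
    intro x hs
    have key : ∀ t t', Eqn (VW T val W x) t t' →
        ∀ I : Finset (Fin (rA a)), ∀ g : Fin (rA a) → RTree A rA,
          T.L (WType.mk a g) x → (∀ i ∈ I, g i = f i) → (∀ i ∉ I, g i ∈ W) →
          ev (val (WType.mk a g)) t = ev (val (WType.mk a g)) t' := by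
      intro t t' he I
      induction I using Finset.induction_on with
      | empty =>
        intro g h1 _ h3
        exact (hst a g x (fun i => h3 i (by simp)) h1).2 t t' he
      | insert j I hj ihI =>
        intro g h1 h2 h3
        obtain ⟨tj, htj⟩ := hone a g j t
        obtain ⟨tj', htj'⟩ := hone a g j t'
        have e : Eqn (VW T val W (T.nx x a j)) tj tj' := by
          rintro w ⟨s, s1, s2, rfl⟩
          rw [htj, htj']
          apply ihI _ (T.upd h1 s2)
          · intro i hi
            have c : i ≠ j := fun c => hj (c ▸ hi)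
            rw [Function.update_of_ne c]; exact h2 i (Finset.mem_insert_of_mem hi)
          · intro i hi
            by_cases c : i = j
            · rw [c, Function.update_self]; exact s1
            · rw [Function.update_of_ne c]; exact h3 i (by simp [c, hi])
        have e2 := (ih j _ (hs.2 j)).2 tj tj' e
        rw [htj, htj', ← h2 j (Finset.mem_insert_self _ _), Function.update_eq_self] at e2
        exact e2
    have hg : ∀ i, ∃ s ∈ W, T.L s (T.nx x a i) := by
      intro i
      obtain ⟨w, s, h1, h2, _⟩ := (ih i _ (hs.2 i)).1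
      exact ⟨s, h1, h2⟩
    constructor
    · choose g h1 h2 using hg
      exact (hst a g x h1 ⟨hs.1, h2⟩).1
    · intro t t' he
      exact key t t' he Finset.univ f hs (fun _ _ => rfl)
        (fun i hi => absurd (Finset.mem_univ i) hi)

theorem small [Fintype X] (T : TA A rA X) :
    ∃ W : Set (RTree A rA), W.Finite ∧ Closed W ∧ W.ncard ≤ Fintype.card X ∧
      ∀ (s : RTree A rA) (x : X), T.L s x → ∃ u ∈ W, T.L u x := by
  obtain ⟨W, h1, h2, h3, h4⟩ := sat (B := Unit) (rB := fun _ => 0) (Q := Empty) T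
    (fun _ q => q.elim) (fun _ _ _ t => ⟨t, fun _ => rfl⟩)
  refine ⟨W, h1, h2, by simpa using h3, fun s x hs => ?_⟩
  obtain ⟨w, u, h5, h6, -⟩ := (h4 s x hs).1
  exact ⟨u, h5, h6⟩

theorem new_upd {W : Set (RTree A rA)} (hW : Closed W) {a : A} {g : Fin (rA a) → RTree A rA}
    (hg : ∀ i, g i ∈ W) (j : Fin (rA a)) (t : RTree A rA) :
    (subtrees (WType.mk a (Function.update g j t) : RTree A rA) \ W).ncard ≤
      (subtrees t \ W).ncard + 1 := by
  refine le_trans (Set.ncard_le_ncard (t := insert (WType.mk a (Function.update g j t))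
    (subtrees t \ W)) ?_ (((sub_finite t).subset Set.sdiff_subset).insert _))
    (Set.ncard_insert_le _ _)
  rintro u ⟨h1, h2⟩
  rw [sub_mk] at h1
  rcases h1 with h1 | h1
  · exact Or.inl h1
  · obtain ⟨i, hi⟩ := Set.mem_iUnion.1 h1
    by_cases c : i = j
    · rw [c, Function.update_self] at hi
      exact Or.inr ⟨hi, h2⟩
    · rw [Function.update_of_ne c] at hi
      exact absurd (sub_subset hW _ (hg i) hi) h2

theorem new_mk {W : Set (RTree A rA)} (hW : Closed W) {a : A} {g : Fin (rA a) → RTree A rA}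
    (hg : ∀ i, g i ∈ W) : (subtrees (WType.mk a g : RTree A rA) \ W).ncard ≤ 1 := by
  rw [← Set.ncard_singleton (WType.mk a g : RTree A rA)]
  refine Set.ncard_le_ncard ?_ (Set.finite_singleton _)
  rintro u ⟨h1, h2⟩
  rw [sub_mk] at h1
  rcases h1 with h1 | h1
  · exact h1
  · obtain ⟨i, hi⟩ := Set.mem_iUnion.1 h1
    exact absurd (sub_subset hW _ (hg i) hi) h2

theorem moore [Fintype X] (T : TA A rA X) {x y : X}
    (hag : ∀ s : RTree A rA, (subtrees s).ncard ≤ 2 * Fintype.card X → (T.L s x ↔ T.L s y))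
    (s : RTree A rA) (hs : T.L s x) : T.L s y := by
  obtain ⟨W, w1, w2, w3, w4⟩ := small T
  obtain ⟨r, hr⟩ := exists_injective_nat X
  let Ag : ℕ → X → X → Prop := fun k x y =>
    ∀ s : RTree A rA, (subtrees s \ W).ncard ≤ k → (T.L s x ↔ T.L s y)
  have mono : ∀ {h h' : ℕ} {x y : X}, h ≤ h' → Ag h' x y → Ag h x y :=
    fun hh H s hs => H s (hs.trans hh)
  obtain ⟨k, hk, hst⟩ := chain_stab (fun k => {x | ∀ y, Ag k x y → r x ≤ r y})
    (fun k x hx y hy => hx y (mono (by omega) hy))
  have rep : ∀ x, ∃ x', Ag (k + 1) x x' ∧ ∀ y, Ag k x' y → r x' ≤ r y := by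
    intro x
    obtain ⟨x', h1, h2⟩ := Set.exists_min_image {z | Ag (k + 1) x z} r
      (Set.toFinite _) ⟨x, fun _ _ => Iff.rfl⟩
    exact ⟨x', h1, hst fun y hy => h2 y fun s hs => (h1 s hs).trans (hy s hs)⟩
  have up : ∀ x y, Ag k x y → Ag (k + 1) x y := by
    intro x y H
    obtain ⟨x', h1, h2⟩ := rep x
    obtain ⟨y', h3, h4⟩ := rep y
    have h5 : Ag k x' y' := fun s hs =>
      (h1 s (by omega)).symm.trans ((H s hs).trans (h3 s (by omega)))
    have h6 : x' = y' := hr (le_antisymm (h2 _ h5) (h4 _ fun s hs => (h5 s hs).symm))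
    exact fun s hs => (h1 s hs).trans (h6 ▸ (h3 s hs).symm)
  replace hag : Ag k x y := by
    intro u hu
    apply hag
    have h1 : (subtrees u).ncard ≤ (subtrees u \ W ∪ W).ncard :=
      Set.ncard_le_ncard (Set.subset_sdiff_union _ _)
        (((sub_finite u).subset Set.sdiff_subset).union w1)
    have h2 := Set.ncard_union_le (subtrees u \ W) W
    rw [Nat.card_eq_fintype_card] at hk
    omega
  induction s generalizing x y with
  | mk a f ih =>
    choose g h1 h2 using fun j => w4 _ _ (hs.2 j)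
    have h4 : T.L (WType.mk a g) x := ⟨hs.1, h2⟩
    have hu := up _ _ hag
    have hy : T.L (WType.mk a g) y := (hu _ ((new_mk w2 h1).trans (by omega))).1 h4
    refine ⟨hy.1, fun j => ih j (hs.2 j) fun t ht => ?_⟩
    have h5 := hu _ ((new_upd w2 h1 j t).trans (by omega))
    constructor
    · intro h6
      have := (h5.1 (T.upd h4 h6)).2 j
      rwa [Function.update_self] at this
    · intro h6
      have := (h5.2 (T.upd hy h6)).2 j
      rwa [Function.update_self] at this

end Pool.Agent.P.MP_460c01_lc.Dg
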