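import Pool.Agent.P.MP_460c01_lc.Up
import Pool.Agent.P.MP_460c01_lc.GDefs

namespace Pool.Agent.P.MP_460c01_lc

section Pad

variable {A : Type} {rA : A → ℕ} {B : Type} {rB : B → ℕ} {Q Q' : Type}

def DT.pad (M : DT A rA B rB Q) (ι : Q → Q') (g : Q' → Q) : DT A rA B rB Q' where
  init := ι M.init
  rule := fun q a => (M.rule (g q) a).map (fun ζ => ζ.bnd (fun p => .var (ι p.1, p.2)))

theorem DT.pad_run (M : DT A rA B rB Q) {ι : Q → Q'} {g : Q' → Q} (h : ∀ q, g (ι q) = q)
    (s : RTree A rA) (q : Q) : (M.pad ι g).run s (ι q) = M.run s q := by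
  induction s generalizing q with
  | mk a f ih =>
    simp only [DT.run, DT.pad, h]
    cases M.rule q a with
    | none => rfl
    | some ζ =>
      simp only [Option.map_some, Option.bind_some, subst_bnd]
      congr 1
      funext p
      exact ih _ _

theorem Good.apply {n₁ n₂ H : ℕ} (hG : Good n₁ n₂ H) [Finite A] [Finite B] {Q1 Q2 : Type}
    [Fintype Q1] [Fintype Q2] (h1 : Fintype.card Q1 ≤ n₁) (h2 : Fintype.card Q2 ≤ n₂)
    (M1 : DT A rA B rB Q1) (M2 : DT A rA B rB Q2)
    (h : ∀ s : RTree A rA, s.depth ≤ H → M1.run s M1.init = M2.run s M2.init)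
    (s : RTree A rA) : M1.run s M1.init = M2.run s M2.init := by
  obtain ⟨ι1⟩ := Function.Embedding.nonempty_of_card_le (h1.trans (Fintype.card_fin n₁).ge)
  obtain ⟨ι2⟩ := Function.Embedding.nonempty_of_card_le (h2.trans (Fintype.card_fin n₂).ge)
  have : Nonempty Q1 := ⟨M1.init⟩
  have : Nonempty Q2 := ⟨M2.init⟩
  have e1 := M1.pad_run (Function.leftInverse_invFun ι1.injective)
  have e2 := M2.pad_run (Function.leftInverse_invFun ι2.injective)
  rw [← e1, ← e2]
  exact hG A rA B rB (M1.pad ι1 (Function.invFun ι1)) (M2.pad ι2 (Function.invFun ι2))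
    (fun u hu => (e1 u _).trans ((h u hu).trans (e2 u _).symm)) s

theorem Good.symm {n₁ n₂ H : ℕ} (hG : Good n₁ n₂ H) : Good n₂ n₁ H :=
  fun A _ rA B _ rB M₁ M₂ h s => (hG A rA B rB M₂ M₁ (fun u hu => (h u hu).symm) s).symm

end Pad

section Design

/-- input symbols: one leaf and `m + 1` unary symbols -/
abbrev rI (m : ℕ) : Option (Fin (m + 1)) → ℕ
  | none => 0
  | some _ => 1

/-- output symbols: two leaves and one symbol of rank `N + 1` -/
abbrev rO (N : ℕ) : Option Bool → ℕ
  | none => N + 1
  | some _ => 0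

variable {N m : ℕ} (S : ℕ → Set (Fin N)) (u v : ℕ → Fin N)

def lf {Z : Type} (b : Bool) : Rhs (Option Bool) (rO N) Z := .node (some b) Fin.elim0

open Classical in
noncomputable def rhs (τ : ℕ) (w : Fin N) : Rhs (Option Bool) (rO N) (Option (Fin N) × Fin 1) :=
  .node none (Fin.cons (.var (some w, 0)) fun j => if j ∈ S τ then .var (some j, 0) else lf false)

open Classical in
noncomputable def des (m : ℕ) (z : Fin N) :
    DT (Option (Fin (m + 1))) (rI m) (Option Bool) (rO N) (Option (Fin N)) where
  init := none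
  rule := fun q a => match q, a with
    | none, none => none
    | none, some τ => if (τ : ℕ) = m then some (rhs S m z) else none
    | some q, none => if q ∈ S 0 then some (lf (decide (q = v 0))) else none
    | some q, some τ => if (τ : ℕ) < m ∧ q ∈ S (τ + 1) then
        some (rhs S τ (if q = v (τ + 1) then v τ else u τ)) else none

theorem subst_lf {Z : Type} (ρ : Z → Option (RTree (Option Bool) (rO N))) (b : Bool) :
    (lf b).subst ρ = some (WType.mk (some b) Fin.elim0) := by
  simp only [lf, Rhs.subst]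
  rw [dif_pos (fun i => i.elim0)]
  congr 2
  funext i
  exact i.elim0

theorem rhs_some (ρ : Option (Fin N) × Fin 1 → Option (RTree (Option Bool) (rO N))) (τ : ℕ)
    {w : Fin N} (hw : w ∈ S τ) :
    ((rhs S τ w).subst ρ).isSome ↔ ∀ j ∈ S τ, (ρ (some j, 0)).isSome := by
  rw [subst_isSome_iff]
  constructor
  · intro h j hj
    refine h _ ⟨Fin.succ j, ?_⟩
    rw [Fin.cons_succ, if_pos hj]
    rfl
  · rintro h z ⟨i, hi⟩
    revert hi
    refine Fin.cases (fun hi => ?_) (fun j hi => ?_) i
    · exact (show (some w, 0) = z from hi) ▸ h w hw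
    · rw [Fin.cons_succ] at hi
      split_ifs at hi with c
      · exact (show (some j, 0) = z from hi) ▸ h j c
      · obtain ⟨k, _⟩ := hi
        exact k.elim0

theorem rhs_congr {ρ ρ' : Option (Fin N) × Fin 1 → Option (RTree (Option Bool) (rO N))} (τ : ℕ)
    {w w' : Fin N} (h : ∀ j, ρ (some j, 0) = ρ' (some j, 0))
    (hw : ρ (some w, 0) = ρ' (some w', 0)) : (rhs S τ w).subst ρ = (rhs S τ w').subst ρ' := by
  classical
  have : ∀ i : Fin (N + 1), Rhs.subst ρ ((Fin.cons (.var (some w, 0))
      (fun j => if j ∈ S τ then .var (some j, 0) else lf false) : Fin (N + 1) → _) i) =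
      Rhs.subst ρ' ((Fin.cons (.var (some w', 0))
      (fun j => if j ∈ S τ then .var (some j, 0) else lf false) : Fin (N + 1) → _) i) := by
    intro i
    refine Fin.cases hw (fun j => ?_) i
    rw [Fin.cons_succ, Fin.cons_succ]
    split_ifs
    · exact h j
    · rw [subst_lf, subst_lf]
  simp only [rhs, Rhs.subst, this]

theorem rhs_inj {ρ ρ' : Option (Fin N) × Fin 1 → Option (RTree (Option Bool) (rO N))} (τ : ℕ)
    {w w' : Fin N} (h : ((rhs S τ w).subst ρ).isSome)
    (e : (rhs S τ w).subst ρ = (rhs S τ w').subst ρ') : ρ (some w, 0) = ρ' (some w', 0) := by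
  have h' := e ▸ h
  simp only [rhs, Rhs.subst] at h h' e
  split_ifs at h h' e with c c'
  · rw [Option.some.injEq, WType.mk.injEq] at e
    have := congrFun (eq_of_heq e.2) (0 : Fin (N + 1))
    exact (Option.some_get (c (0 : Fin (N + 1)))).symm.trans
      ((congrArg some this).trans (Option.some_get (c' (0 : Fin (N + 1)))))
  all_goals simp_all

theorem des_indep (z z' : Fin N) (s : RTree _ (rI m)) (q : Fin N) :
    (des S u v m z).run s (some q) = (des S u v m z').run s (some q) := by
  induction s generalizing q with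
  | mk a f ih =>
    cases a with
    | none =>
      simp only [DT.run, des]
      split_ifs
      · simp only [Option.bind_some, subst_lf]
      · rfl
    | some τ =>
      simp only [DT.run, des]
      split_ifs
      all_goals first | rfl | exact rhs_congr S _ (fun j => ih _ _) (ih _ _)

theorem depth_one (τ : Fin (m + 1)) (f : Fin 1 → RTree _ (rI m)) :
    (WType.mk (β := fun a => Fin (rI m a)) (some τ) f).depth = (f 0).depth + 1 := by
  show Finset.univ.sup (fun i : Fin 1 => (f i).depth) + 1 = _
  simp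

variable (hu : ∀ τ, u τ ∈ S τ) (hv : ∀ τ, v τ ∈ S τ)
include hu hv

theorem step_def (z : Fin N) {τ : Fin (m + 1)} {f : Fin 1 → RTree _ (rI m)} {q : Fin N}
    (h : ((des S u v m z).run (WType.mk (some τ) f) (some q)).isSome) :
    (τ : ℕ) < m ∧ q ∈ S (τ + 1) ∧ ∀ j ∈ S τ, ((des S u v m z).run (f 0) (some j)).isSome := by
  simp only [DT.run, des] at h
  by_cases c : (τ : ℕ) < m ∧ q ∈ S (τ + 1)
  · rw [if_pos c, Option.bind_some, rhs_some S _ _ (by split_ifs; exacts [hv _, hu _])] at h
    exact ⟨c.1, c.2, h⟩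
  · rw [if_neg c] at h
    exact absurd h (by simp)

omit hu hv in
theorem leaf_def (z : Fin N) {f : Fin 0 → RTree _ (rI m)} {q : Fin N}
    (h : ((des S u v m z).run (WType.mk none f) (some q)).isSome) : q ∈ S 0 := by
  simp only [DT.run, des] at h
  by_contra c
  rw [if_neg c] at h
  exact absurd h (by simp)

theorem deep_def (hS : ∀ τ ≤ m, ∀ τ' ≤ m, S τ ⊆ S τ' → τ ≤ τ') (z : Fin N) (s : RTree _ (rI m))
    {τ : ℕ} (hτ : τ ≤ m) (h : ∀ j ∈ S τ, ((des S u v m z).run s (some j)).isSome) :
    τ < s.depth := by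
  induction s generalizing τ with
  | mk a f ih =>
    cases a with
    | none =>
      have := hS τ hτ 0 (Nat.zero_le _) fun j hj => leaf_def S u v z (h j hj)
      exact this.trans_lt (WType.depth_pos _)
    | some σ =>
      obtain ⟨h1, -, h3⟩ := step_def S u v hu hv z (h _ (hu τ))
      have h4 := hS τ hτ (σ + 1) h1 fun j hj => (step_def S u v hu hv z (h j hj)).2.1
      have h5 := ih (0 : Fin 1) h1.le h3
      rw [depth_one]
      omega

theorem deep_ne (huv : ∀ τ τ', u τ ≠ v τ')
    (hS : ∀ τ ≤ m, ∀ τ' ≤ m, S τ ⊆ S τ' → v τ = v τ' → τ ≤ τ') (z : Fin N) (s : RTree _ (rI m))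
    {τ : ℕ} (hτ : τ ≤ m) (h : ∀ j ∈ S τ, ((des S u v m z).run s (some j)).isSome)
    (hne : (des S u v m z).run s (some (u τ)) ≠ (des S u v m z).run s (some (v τ))) :
    τ < s.depth := by
  induction s generalizing τ with
  | mk a f ih =>
    cases a with
    | none =>
      have h1 : S τ ⊆ S 0 := fun j hj => leaf_def S u v z (h j hj)
      have h2 : v τ = v 0 := by
        by_contra c
        apply hne
        simp only [DT.run, des, if_pos (h1 (hu τ)), if_pos (h1 (hv τ)), c, huv]
      exact (hS τ hτ 0 (Nat.zero_le _) h1 h2).trans_lt (WType.depth_pos _)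
    | some σ =>
      obtain ⟨h0, -, h3⟩ := step_def S u v hu hv z (h _ (hu τ))
      have h1 : S τ ⊆ S (σ + 1) := fun j hj => (step_def S u v hu hv z (h j hj)).2.1
      have h2 : v τ = v (σ + 1) := by
        by_contra c
        apply hne
        simp only [DT.run, des, h0, h1 (hu τ), h1 (hv τ), and_self, if_true, c, huv]
      have h4 := hS τ hτ (σ + 1) h0 h1 h2
      have h5 := ih (0 : Fin 1) h0.le h3 fun e => hne (by
        simp only [DT.run, des, h0, h1 (hu τ), hv, and_self, if_true, h2, huv, if_false,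
          Option.bind_some]
        exact rhs_congr S _ (fun _ => rfl) e)
      rw [depth_one]
      omega

theorem exists_deep (z : Fin N) {τ : ℕ} (hτ : τ ≤ m) : ∃ s : RTree _ (rI m),
    (∀ j ∈ S τ, ((des S u v m z).run s (some j)).isSome) ∧ ((∀ τ τ', u τ ≠ v τ') →
      (des S u v m z).run s (some (u τ)) ≠ (des S u v m z).run s (some (v τ))) := by
  induction τ with
  | zero =>
    refine ⟨WType.mk none Fin.elim0, fun j hj => ?_, fun huv e => ?_⟩
    · simp only [DT.run, des, if_pos hj, Option.bind_some, subst_lf, Option.isSome_some]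
    · simp [DT.run, des, hu, hv, subst_lf, huv] at e
  | succ τ ih =>
    obtain ⟨s, h1, h2⟩ := ih (by omega)
    have h3 : τ < m := hτ
    have h4 : ∀ j ∈ S (τ + 1), ((des S u v m z).run
        (WType.mk (some ⟨τ, by omega⟩) fun _ => s) (some j)).isSome := fun j hj => by
      simp only [DT.run, des, h3, hj, and_self, if_true, Option.bind_some]
      exact (rhs_some S _ _ (by split_ifs; exacts [hv _, hu _])).2 h1
    refine ⟨_, h4, fun huv e => h2 huv ?_⟩
    have h5 := h4 _ (hu _)
    simp only [DT.run, des, h3, hu, hv, and_self, if_true, Option.bind_some, huv, if_false] at e h5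
    exact rhs_inj S _ h5 e

theorem root_def {z : Fin N} (hz : z ∈ S m) {s : RTree _ (rI m)}
    (h : ((des S u v m z).run s none).isSome) : ∃ t : RTree _ (rI m),
      s = WType.mk (some (Fin.last m)) (fun _ => t) ∧
        ∀ j ∈ S m, ((des S u v m z).run t (some j)).isSome := by
  obtain ⟨a, f⟩ := s
  cases a with
  | none => exact absurd h (by simp [DT.run, des])
  | some σ =>
    simp only [DT.run, des] at h
    by_cases c : (σ : ℕ) = m
    · rw [if_pos c, Option.bind_some, rhs_some S _ _ hz] at h
      obtain rfl : σ = Fin.last m := Fin.ext c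
      refine ⟨f (0 : Fin 1), ?_, h⟩
      congr 1
      funext i
      rw [Subsingleton.elim (α := Fin 1) i 0]
    · rw [if_neg c] at h
      exact absurd h (by simp)

theorem root_run (z : Fin N) (t : RTree _ (rI m)) :
    (des S u v m z).run (WType.mk (some (Fin.last m)) fun _ => t) none =
      (rhs S m z).subst fun p => (des S u v m z).run t p.1 := by
  simp only [DT.run, des, Fin.val_last, if_true, Option.bind_some]

theorem low_def (hS : ∀ τ ≤ m, ∀ τ' ≤ m, S τ ⊆ S τ' → τ ≤ τ') {n₁ n₂ H : ℕ} (h1 : N + 1 ≤ n₁)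
    (h2 : 1 ≤ n₂) (hG : Good n₁ n₂ H) : m + 2 ≤ H := by
  by_contra hc
  obtain ⟨t, ht, -⟩ := exists_deep S u v hu hv (u m) (le_refl m)
  have := hG.apply (by simpa using h1) (by simpa using h2) (des S u v m (u m))
    (⟨(), fun _ _ => none⟩ : DT _ _ _ _ Unit) (fun s hs => by
      have e : ∀ s : RTree _ (rI m), DT.run (⟨(), fun _ _ => none⟩ :
        DT _ (rI m) _ (rO N) Unit) s () = none := fun ⟨_, _⟩ => rfl
      refine Eq.trans (Option.not_isSome_iff_eq_none.1 fun c => ?_) (e s).symm
      obtain ⟨t, rfl, ht⟩ := root_def S u v hu hv (hu m) c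
      have := deep_def S u v hu hv hS _ t le_rfl ht
      rw [depth_one] at hs
      omega) (WType.mk (some (Fin.last m)) fun _ => t)
  have h3 := (rhs_some S (fun p => (des S u v m (u m)).run t p.1) m (hu m)).2 ht
  rw [← root_run S u v hu hv] at h3
  exact absurd ((congrArg Option.isSome this).symm.trans h3) (by simp [DT.run])

theorem low_ne (huv : ∀ τ τ', u τ ≠ v τ')
    (hS : ∀ τ ≤ m, ∀ τ' ≤ m, S τ ⊆ S τ' → v τ = v τ' → τ ≤ τ') {n₁ n₂ H : ℕ} (h1 : N + 1 ≤ n₁)
    (h2 : N + 1 ≤ n₂) (hG : Good n₁ n₂ H) : m + 2 ≤ H := by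
  by_contra hc
  obtain ⟨t, ht, hne⟩ := exists_deep S u v hu hv (u m) (le_refl m)
  have key : ∀ t : RTree _ (rI m), t.depth ≤ m →
      (∀ j ∈ S m, ((des S u v m (u m)).run t (some j)).isSome) →
      (des S u v m (u m)).run (WType.mk (some (Fin.last m)) fun _ => t) none =
      (des S u v m (v m)).run (WType.mk (some (Fin.last m)) fun _ => t) none := by
    intro t h3 h4
    rw [root_run S u v hu hv, root_run S u v hu hv]
    refine rhs_congr S _ (fun j => des_indep S u v _ _ t j) (Eq.trans ?_ (des_indep S u v (u m) _ t _))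
    by_contra c
    exact absurd (deep_ne S u v hu hv huv hS _ t le_rfl h4 c) (by omega)
  have := hG.apply (by simpa using h1) (by simpa using h2) (des S u v m (u m)) (des S u v m (v m))
    (fun s hs => by
      by_cases c : ((des S u v m (u m)).run s none).isSome
      · obtain ⟨t, rfl, ht⟩ := root_def S u v hu hv (hu m) c
        rw [depth_one] at hs
        exact key t (by omega) ht
      · by_cases c' : ((des S u v m (v m)).run s none).isSome
        · obtain ⟨t, rfl, ht⟩ := root_def S u v hu hv (hv m) c'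
          rw [depth_one] at hs
          exact key t (by omega) fun j hj => des_indep S u v (v m) _ t j ▸ ht j hj
        · exact (Option.not_isSome_iff_eq_none.1 c).trans (Option.not_isSome_iff_eq_none.1 c').symm)
    (WType.mk (some (Fin.last m)) fun _ => t)
  have h3 := (rhs_some S (fun p => (des S u v m (u m)).run t p.1) m (hu m)).2 ht
  have h4 := ((root_run S u v hu hv _ t).symm.trans this).trans (root_run S u v hu hv _ t)
  exact hne huv ((rhs_inj S _ h3 h4).trans (des_indep S u v _ _ t _))

end Design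

end Pool.Agent.P.MP_460c01_lc
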