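import Pool.Agent.P.MP_460c01_lc.Defs

namespace Pool.Agent.P.MP_460c01_lc

open Finset

section Terms

variable {B : Type} {rk : B → ℕ}

def Rhs.bnd {X Y : Type} (ρ : X → Rhs B rk Y) : Rhs B rk X → Rhs B rk Y
  | .var x => ρ x
  | .node b g => .node b (fun i => Rhs.bnd ρ (g i))

theorem bnd_bnd {X Y Z : Type} (ρ : X → Rhs B rk Y) (ρ' : Y → Rhs B rk Z) (t : Rhs B rk X) :
    (t.bnd ρ).bnd ρ' = t.bnd (fun x => (ρ x).bnd ρ') := by
  induction t with
  | var x => rfl
  | node b g ih => simp only [Rhs.bnd]; congr 1; funext i; exact ih i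

theorem bnd_var {X : Type} (t : Rhs B rk X) : t.bnd Rhs.var = t := by
  induction t with
  | var x => rfl
  | node b g ih => simp only [Rhs.bnd]; congr 1; funext i; exact ih i

theorem subst_bnd {X Y : Type} (ρ : X → Rhs B rk Y) (ρ' : Y → Option (RTree B rk))
    (t : Rhs B rk X) : (t.bnd ρ).subst ρ' = t.subst (fun x => (ρ x).subst ρ') := by
  induction t with
  | var x => rfl
  | node b g ih =>
    simp only [Rhs.bnd, Rhs.subst, ih]

theorem subst_isSome {X : Type} (ρ ρ' : X → Option (RTree B rk))
    (h : ∀ x, (ρ x).isSome = (ρ' x).isSome) (t : Rhs B rk X) :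
    (t.subst ρ).isSome = (t.subst ρ').isSome := by
  induction t with
  | var x => exact h x
  | node b g ih =>
    simp only [Rhs.subst]
    by_cases h1 : ∀ i, (Rhs.subst ρ (g i)).isSome
    · have h2 : ∀ i, (Rhs.subst ρ' (g i)).isSome := fun i => ih i ▸ h1 i
      rw [dif_pos h1, dif_pos h2]; rfl
    · have h2 : ¬ ∀ i, (Rhs.subst ρ' (g i)).isSome := fun h2 => h1 (fun i => (ih i).symm ▸ h2 i)
      rw [dif_neg h1, dif_neg h2]

def emb : RTree B rk → Rhs B rk Unit
  | WType.mk b f => .node b (fun i => emb (f i))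

theorem eq_emb (u : Rhs B rk Unit) (t : RTree B rk) (h : u.subst (fun _ => none) = some t) :
    u = emb t := by
  induction u generalizing t with
  | var x => simp [Rhs.subst] at h
  | node b g ih =>
    simp only [Rhs.subst] at h
    split_ifs at h with h1
    rw [Option.some.injEq] at h
    subst h
    simp only [emb]
    congr 1
    funext i
    exact ih i _ (Option.some_get (h1 i)).symm

def dep {X : Type} : Rhs B rk X → ℕ
  | .var _ => 0
  | .node _ g => Finset.univ.sup (fun i => dep (g i)) + 1

variable {Q : Type}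

/-- evaluation of a term at a valuation -/
def ev (w : Q → Rhs B rk Unit) (t : Rhs B rk (Option Q)) : Rhs B rk Unit :=
  t.bnd (fun o => o.elim (.var ()) w)

def Over (S : Finset Q) : Rhs B rk (Option Q) → Prop
  | .var o => ∀ q, o = some q → q ∈ S
  | .node _ g => ∀ i, Over S (g i)

def Eqn (V : Set (Q → Rhs B rk Unit)) (t t' : Rhs B rk (Option Q)) : Prop :=
  ∀ w ∈ V, ev w t = ev w t'

def Gen (V : Set (Q → Rhs B rk Unit)) (S : Finset Q) : Prop :=
  ∀ q, ∃ τ, Over S τ ∧ Eqn V (.var (some q)) τ

theorem over_bnd {S S' : Finset Q} (σ : Option Q → Rhs B rk (Option Q))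
    (hσ : ∀ o, (∀ q, o = some q → q ∈ S) → Over S' (σ o)) (t : Rhs B rk (Option Q))
    (ht : Over S t) : Over S' (t.bnd σ) := by
  induction t with
  | var o => exact hσ o ht
  | node b g ih => exact fun i => ih i (ht i)

theorem ev_bnd (w : Q → Rhs B rk Unit) (σ : Option Q → Rhs B rk (Option Q))
    (hσ : ∀ o, ev w (σ o) = ev w (.var o)) (t : Rhs B rk (Option Q)) :
    ev w (t.bnd σ) = ev w t := by
  unfold ev
  rw [bnd_bnd]
  congr 1
  funext o
  exact hσ o

theorem gen_erase [DecidableEq Q] {V : Set (Q → Rhs B rk Unit)} {S : Finset Q} (hS : Gen V S)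
    {b : Q} {τ : Rhs B rk (Option Q)} (h1 : Over (S.erase b) τ) (h2 : Eqn V (.var (some b)) τ) :
    Gen V (S.erase b) := by
  intro q
  obtain ⟨t, ht, he⟩ := hS q
  refine ⟨t.bnd (fun o => if o = some b then τ else .var o), ?_, ?_⟩
  · apply over_bnd _ _ t ht
    intro o ho
    split_ifs with h
    · exact h1
    · intro q hq
      exact Finset.mem_erase.2 ⟨fun e => h (by rw [hq, e]), ho q hq⟩
  · intro w hw
    rw [ev_bnd, he w hw]
    intro o
    split_ifs with h
    · rw [h]; exact (h2 w hw).symm
    · rfl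

theorem occurs [DecidableEq Q] (w : Q → Rhs B rk Unit) {S : Finset Q} (b : Q)
    (τ : Rhs B rk (Option Q)) (h : Over S τ) : Over (S.erase b) τ ∨ dep (w b) ≤ dep (ev w τ) := by
  induction τ with
  | var o =>
    by_cases e : o = some b
    · right; rw [e]; exact le_rfl
    · left; intro q hq
      exact Finset.mem_erase.2 ⟨fun e' => e (by rw [hq, e']), h q hq⟩
  | node c g ih =>
    by_cases e : ∀ i, Over (S.erase b) (g i)
    · exact Or.inl e
    · right
      push Not at e
      obtain ⟨i, hi⟩ := e
      have h1 := (ih i (h i)).resolve_left hi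
      have h2 : dep (ev w (g i)) ≤ Finset.univ.sup (fun i => dep (ev w (g i))) :=
        Finset.le_sup (f := fun i => dep (ev w (g i))) (Finset.mem_univ i)
      show dep (w b) ≤ Finset.univ.sup (fun i => dep (ev w (g i))) + 1
      omega

theorem var_case [DecidableEq Q] {V : Set (Q → Rhs B rk Unit)} (hV : V.Nonempty) {S : Finset Q}
    (hS : Gen V S) (hmin : ∀ S', Gen V S' → S.card ≤ S'.card) {b : Q} (hb : b ∈ S)
    (t' : Rhs B rk (Option Q)) (ht' : Over S t') (he : Eqn V (.var (some b)) t') :
    t' = .var (some b) := by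
  have no : ¬ Over (S.erase b) t' := by
    intro h
    have := hmin _ (gen_erase hS h he)
    rw [Finset.card_erase_of_mem hb] at this
    have := Finset.card_pos.2 ⟨b, hb⟩
    omega
  cases t' with
  | var o =>
    by_contra hne
    apply no
    intro q hq
    exact Finset.mem_erase.2 ⟨fun e' => hne (by rw [hq, e']), ht' q hq⟩
  | node c g =>
    exfalso
    obtain ⟨w, hw⟩ := hV
    have e : ¬ ∀ i, Over (S.erase b) (g i) := no
    push Not at e
    obtain ⟨i, hi⟩ := e
    have h1 := (occurs w b (g i) (ht' i)).resolve_left hi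
    have h2 : dep (ev w (g i)) ≤ Finset.univ.sup (fun i => dep (ev w (g i))) :=
      Finset.le_sup (f := fun i => dep (ev w (g i))) (Finset.mem_univ i)
    have h3 : dep (w b) = Finset.univ.sup (fun i => dep (ev w (g i))) + 1 :=
      congrArg dep (he w hw)
    omega

theorem indep [DecidableEq Q] {V : Set (Q → Rhs B rk Unit)} (hV : V.Nonempty) {S : Finset Q}
    (hS : Gen V S) (hmin : ∀ S', Gen V S' → S.card ≤ S'.card)
    (t t' : Rhs B rk (Option Q)) (ht : Over S t) (ht' : Over S t') (he : Eqn V t t') : t = t' := by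
  induction t generalizing t' with
  | var o =>
    cases o with
    | some b => exact (var_case hV hS hmin (ht b rfl) t' ht' he).symm
    | none =>
      cases t' with
      | var o' =>
        cases o' with
        | some b => exact var_case hV hS hmin (ht' b rfl) _ ht (fun w hw => (he w hw).symm)
        | none => rfl
      | node c g =>
        obtain ⟨w, hw⟩ := hV
        have := he w hw
        simp [ev, Rhs.bnd] at this
  | node c g ih =>
    cases t' with
    | var o' =>
      cases o' with
      | some b => exact var_case hV hS hmin (ht' b rfl) _ ht (fun w hw => (he w hw).symm)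
      | none =>
        obtain ⟨w, hw⟩ := hV
        have := he w hw
        simp [ev, Rhs.bnd] at this
    | node c' g' =>
      obtain ⟨w, hw⟩ := hV
      have h1 := he w hw
      simp only [ev, Rhs.bnd, Rhs.node.injEq] at h1
      obtain ⟨rfl, -⟩ := h1
      congr 1
      funext i
      apply ih i _ (ht i) (ht' i)
      intro w hw
      have h1 := he w hw
      simp only [ev, Rhs.bnd, Rhs.node.injEq, heq_eq_eq, true_and] at h1
      exact congrFun h1 i

theorem gen_univ [Fintype Q] (V : Set (Q → Rhs B rk Unit)) : Gen V Finset.univ :=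
  fun q => ⟨.var (some q), fun _ _ => Finset.mem_univ _, fun _ _ => rfl⟩

theorem gen_anti {V V' : Set (Q → Rhs B rk Unit)} (h : V ⊆ V') {S : Finset Q} (hS : Gen V' S) :
    Gen V S := by
  intro q
  obtain ⟨τ, h1, h2⟩ := hS q
  exact ⟨τ, h1, fun w hw => h2 w (h hw)⟩

/-- the dimension of the equational closure -/
noncomputable def rnk (V : Set (Q → Rhs B rk Unit)) : ℕ :=
  sInf {n | ∃ S, Gen V S ∧ S.card = n}

theorem rnk_le {V : Set (Q → Rhs B rk Unit)} {S : Finset Q} (hS : Gen V S) : rnk V ≤ S.card :=
  Nat.sInf_le ⟨S, hS, rfl⟩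

theorem rnk_spec [Fintype Q] (V : Set (Q → Rhs B rk Unit)) : ∃ S, Gen V S ∧ S.card = rnk V :=
  Nat.sInf_mem (s := {n | ∃ S, Gen V S ∧ S.card = n}) ⟨_, _, gen_univ V, rfl⟩

theorem rnk_mono [Fintype Q] {V V' : Set (Q → Rhs B rk Unit)} (h : V ⊆ V') : rnk V ≤ rnk V' := by
  obtain ⟨S, h1, h2⟩ := rnk_spec V'
  rw [← h2]
  exact rnk_le (gen_anti h h1)

theorem eqn_of_rnk [Fintype Q] {V V' : Set (Q → Rhs B rk Unit)} (h : V ⊆ V') (hV : V.Nonempty)
    (hr : rnk V' ≤ rnk V) {t t' : Rhs B rk (Option Q)} (he : Eqn V t t') : Eqn V' t t' := by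
  classical
  obtain ⟨S, h1, h2⟩ := rnk_spec V'
  choose τ hτ1 hτ2 using h1
  let σ : Option Q → Rhs B rk (Option Q) := fun o => o.elim (.var none) τ
  have hσ : ∀ w ∈ V', ∀ o, ev w (σ o) = ev w (.var o) := by
    intro w hw o
    cases o with
    | none => rfl
    | some q => exact (hτ2 q w hw).symm
  have hov : ∀ s : Rhs B rk (Option Q), Over S (s.bnd σ) := by
    intro s
    apply over_bnd (S := Finset.univ) σ
    · intro o _
      cases o with
      | none => intro q hq; cases hq
      | some q => exact hτ1 q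
    · induction s with
      | var o => exact fun _ _ => Finset.mem_univ _
      | node b g ih => exact ih
  have e : t.bnd σ = t'.bnd σ := by
    apply indep hV (gen_anti h (fun q => ⟨τ q, hτ1 q, hτ2 q⟩)) _ _ _ (hov t) (hov t')
    · intro w hw
      rw [ev_bnd w σ (hσ w (h hw)), ev_bnd w σ (hσ w (h hw)), he w hw]
    · intro S' hS'
      rw [h2]
      exact hr.trans (rnk_le hS')
  intro w hw
  rw [← ev_bnd w σ (hσ w hw), e, ev_bnd w σ (hσ w hw)]

end Terms

section Trans

variable {A : Type} {rA : A → ℕ} {B : Type} {rB : B → ℕ} {Q : Type}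

/-- total semantics, with an error leaf -/
def tot (M : DT A rA B rB Q) : RTree A rA → Q → Rhs B rB Unit
  | WType.mk a f, q =>
    (M.rule q a).elim (.var ()) (fun ζ => ζ.bnd (fun p => tot M (f p.2) p.1))

theorem run_eq (M : DT A rA B rB Q) (s : RTree A rA) (q : Q) :
    M.run s q = (tot M s q).subst (fun _ => none) := by
  induction s generalizing q with
  | mk a f ih =>
    simp only [DT.run, tot]
    cases M.rule q a with
    | none => rfl
    | some ζ =>
      simp only [Option.bind_some, Option.elim_some, subst_bnd]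
      congr 1
      funext p
      exact ih _ _

/-- the type of an input tree -/
def ty (M : DT A rA B rB Q) (s : RTree A rA) : Q → Bool := fun q => (M.run s q).isSome

theorem ty_congr (M : DT A rA B rB Q) (a : A) (f g : Fin (rA a) → RTree A rA)
    (h : ∀ i, ty M (f i) = ty M (g i)) : ty M (WType.mk a f) = ty M (WType.mk a g) := by
  funext q
  simp only [ty, DT.run]
  cases M.rule q a with
  | none => rfl
  | some ζ =>
    simp only [Option.bind_some]
    apply subst_isSome
    intro p
    exact congrFun (h p.2) p.1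

def Vs (M : DT A rA B rB Q) (h : ℕ) (D : Q → Bool) : Set (Q → Rhs B rB Unit) :=
  {w | ∃ s, s.depth ≤ h ∧ ty M s = D ∧ tot M s = w}

theorem Vs_mono (M : DT A rA B rB Q) (h : ℕ) (D : Q → Bool) : Vs M h D ⊆ Vs M (h + 1) D := by
  rintro w ⟨s, h1, h2, h3⟩
  exact ⟨s, by omega, h2, h3⟩

def St (M : DT A rA B rB Q) (h : ℕ) : Prop :=
  ∀ D, ((Vs M (h + 1) D).Nonempty → (Vs M h D).Nonempty) ∧
    ∀ t t', Eqn (Vs M h D) t t' → Eqn (Vs M (h + 1) D) t t'

theorem depth_mk_le {a : A} {g : Fin (rA a) → RTree A rA} {h : ℕ} (hg : ∀ i, (g i).depth ≤ h) :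
    (WType.mk (β := fun a : A => Fin (rA a)) a g).depth ≤ h + 1 := by
  show Finset.univ.sup (fun i => (g i).depth) + 1 ≤ h + 1
  have : Finset.univ.sup (fun i => (g i).depth) ≤ h := Finset.sup_le (fun i _ => hg i)
  omega

/-- a term as a function of one child -/
theorem one_child (M : DT A rA B rB Q) (a : A) (g : Fin (rA a) → RTree A rA) (j : Fin (rA a))
    (t : Rhs B rB (Option Q)) : ∃ tj : Rhs B rB (Option Q), ∀ s,
      ev (tot M s) tj = ev (tot M (WType.mk a (Function.update g j s))) t := by
  let F : Q → Rhs B rB (Option Q) := fun q =>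
    (M.rule q a).elim (.var none) (fun ζ => ζ.bnd (fun p =>
      if p.2 = j then .var (some p.1) else (tot M (g p.2) p.1).bnd (fun _ => .var none)))
  refine ⟨t.bnd (fun o => o.elim (.var none) F), fun s => ?_⟩
  unfold ev
  rw [bnd_bnd]
  congr 1
  funext o
  cases o with
  | none => rfl
  | some q =>
    simp only [Option.elim_some, F, tot]
    cases M.rule q a with
    | none => rfl
    | some ζ =>
      simp only [Option.elim_some]
      rw [bnd_bnd]
      congr 1
      funext p
      split_ifs with h
      · rw [h, Function.update_self]; rfl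
      · rw [Function.update_of_ne h, bnd_bnd]
        exact bnd_var _

theorem stable (M : DT A rA B rB Q) {h : ℕ} (hst : St M h) (s : RTree A rA) :
    (Vs M h (ty M s)).Nonempty ∧
      ∀ t t', Eqn (Vs M h (ty M s)) t t' → ev (tot M s) t = ev (tot M s) t' := by
  induction s with
  | mk a f ih =>
    have key : ∀ t t', Eqn (Vs M (h + 1) (ty M (WType.mk a f))) t t' →
        ∀ I : Finset (Fin (rA a)), ∀ g : Fin (rA a) → RTree A rA,
          (∀ i, ty M (g i) = ty M (f i)) → (∀ i ∈ I, g i = f i) → (∀ i ∉ I, (g i).depth ≤ h) →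
          ev (tot M (WType.mk a g)) t = ev (tot M (WType.mk a g)) t' := by
      intro t t' he I
      induction I using Finset.induction_on with
      | empty =>
        intro g h1 _ h3
        exact he _ ⟨WType.mk a g, depth_mk_le (fun i => h3 i (by simp)), ty_congr M a g f h1, rfl⟩
      | insert j I hj ihI =>
        intro g h1 h2 h3
        obtain ⟨tj, htj⟩ := one_child M a g j t
        obtain ⟨tj', htj'⟩ := one_child M a g j t'
        have e : Eqn (Vs M h (ty M (f j))) tj tj' := by
          rintro w ⟨s, s1, s2, rfl⟩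
          rw [htj, htj']
          apply ihI
          · intro i
            by_cases c : i = j
            · rw [c, Function.update_self]; exact s2
            · rw [Function.update_of_ne c]; exact h1 i
          · intro i hi
            have c : i ≠ j := fun c => hj (c ▸ hi)
            rw [Function.update_of_ne c]; exact h2 i (Finset.mem_insert_of_mem hi)
          · intro i hi
            by_cases c : i = j
            · rw [c, Function.update_self]; exact s1
            · rw [Function.update_of_ne c]; exact h3 i (by simp [c, hi])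
        have e2 := (ih j).2 tj tj' e
        rw [htj, htj', ← h2 j (Finset.mem_insert_self _ _), Function.update_eq_self] at e2
        exact e2
    constructor
    · apply (hst _).1
      have : ∀ i, ∃ s : RTree A rA, s.depth ≤ h ∧ ty M s = ty M (f i) := by
        intro i
        obtain ⟨w, s, h1, h2, _⟩ := (ih i).1
        exact ⟨s, h1, h2⟩
      choose g h1 h2 using this
      exact ⟨_, WType.mk a g, depth_mk_le h1, ty_congr M a g f h2, rfl⟩
    · intro t t' he
      exact key t t' ((hst _).2 t t' he) Finset.univ f (fun _ => rfl) (fun _ _ => rfl)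
        (fun i hi => absurd (Finset.mem_univ i) hi)

open Classical in
noncomputable def pot (V : Set (Q → Rhs B rB Unit)) : ℕ := if V.Nonempty then rnk V + 1 else 0

theorem pot_mono [Fintype Q] {V V' : Set (Q → Rhs B rB Unit)} (h : V ⊆ V') : pot V ≤ pot V' := by
  unfold pot
  by_cases c : V.Nonempty
  · rw [if_pos c, if_pos (c.mono h)]
    have := rnk_mono h
    omega
  · rw [if_neg c]; exact Nat.zero_le _

theorem pot_le [Fintype Q] (V : Set (Q → Rhs B rB Unit)) : pot V ≤ Fintype.card Q + 1 := by
  unfold pot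
  have := rnk_le (gen_univ V)
  rw [Finset.card_univ] at this
  split_ifs <;> omega

theorem exists_St [Fintype Q] (M : DT A rA B rB Q) :
    ∃ h ≤ 2 ^ Fintype.card Q * (Fintype.card Q + 1), St M h := by
  classical
  let Φ : ℕ → ℕ := fun h => ∑ D : Q → Bool, pot (Vs M h D)
  have hΦ : ∀ h, Φ h ≤ 2 ^ Fintype.card Q * (Fintype.card Q + 1) := by
    intro h
    have := Finset.sum_le_card_nsmul Finset.univ (fun D : Q → Bool => pot (Vs M h D))
      (Fintype.card Q + 1) (fun D _ => pot_le _)
    simpa using this
  by_contra hcon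
  push Not at hcon
  have step : ∀ h, ¬ St M h → Φ h < Φ (h + 1) := by
    intro h hs
    unfold St at hs
    rw [not_forall] at hs
    obtain ⟨D, hD⟩ := hs
    apply Finset.sum_lt_sum (fun D _ => pot_mono (Vs_mono M h D))
    refine ⟨D, Finset.mem_univ _, ?_⟩
    by_contra hle
    apply hD
    rw [not_lt] at hle
    unfold pot at hle
    by_cases c : (Vs M h D).Nonempty
    · refine ⟨fun _ => c, fun t t' he => ?_⟩
      rw [if_pos c, if_pos (c.mono (Vs_mono M h D))] at hle
      exact eqn_of_rnk (Vs_mono M h D) c (by omega) he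
    · rw [if_neg c] at hle
      have c' : ¬ (Vs M (h + 1) D).Nonempty := by
        intro c'
        rw [if_pos c'] at hle
        omega
      exact ⟨fun x => absurd x c', fun t t' _ w hw => absurd ⟨w, hw⟩ c'⟩
  have : ∀ h, h ≤ 2 ^ Fintype.card Q * (Fintype.card Q + 1) + 1 → h ≤ Φ h := by
    intro h
    induction h with
    | zero => intro _; exact Nat.zero_le _
    | succ h ih =>
      intro hh
      have := ih (by omega)
      have := step h (hcon h (by omega))
      omega
  have h1 := this _ le_rfl
  have h2 := hΦ (2 ^ Fintype.card Q * (Fintype.card Q + 1) + 1)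
  omega

theorem two_states [Fintype Q] (M : DT A rA B rB Q) (q1 q2 : Q)
    (hag : ∀ s : RTree A rA, s.depth ≤ 2 ^ Fintype.card Q * (Fintype.card Q + 1) →
      M.run s q1 = M.run s q2) (s : RTree A rA) : M.run s q1 = M.run s q2 := by
  obtain ⟨h, hh, hst⟩ := exists_St M
  obtain ⟨⟨w, s', h1, h2, -⟩, h3⟩ := stable M hst s
  have e1 : (M.run s q1).isSome = (M.run s q2).isSome := by
    have a1 : (M.run s' q1).isSome = (M.run s q1).isSome := congrFun h2 q1
    have a2 : (M.run s' q2).isSome = (M.run s q2).isSome := congrFun h2 q2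
    rw [← a1, ← a2, hag s' (h1.trans hh)]
  by_cases c : (M.run s q1).isSome
  · have e : Eqn (Vs M h (ty M s)) (.var (some q1)) (.var (some q2)) := by
      rintro w ⟨u, u1, u2, rfl⟩
      have a1 : (M.run u q1).isSome = (M.run s q1).isSome := congrFun u2 q1
      rw [c] at a1
      obtain ⟨t, ht⟩ := Option.isSome_iff_exists.1 a1
      have ht' : M.run u q2 = some t := by rw [← hag u (u1.trans hh), ht]
      rw [run_eq] at ht ht'
      show tot M u q1 = tot M u q2
      rw [eq_emb _ _ ht, eq_emb _ _ ht']
    have : tot M s q1 = tot M s q2 := h3 _ _ e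
    rw [run_eq, run_eq, this]
  · have c' : ¬ (M.run s q2).isSome := e1 ▸ c
    rw [Option.not_isSome_iff_eq_none] at c c'
    rw [c, c']

variable {Q1 Q2 : Type}

def sumDT (M1 : DT A rA B rB Q1) (M2 : DT A rA B rB Q2) : DT A rA B rB (Q1 ⊕ Q2) where
  init := Sum.inl M1.init
  rule := fun q a => match q with
    | Sum.inl q => (M1.rule q a).map (fun ζ => ζ.bnd (fun p => .var (Sum.inl p.1, p.2)))
    | Sum.inr q => (M2.rule q a).map (fun ζ => ζ.bnd (fun p => .var (Sum.inr p.1, p.2)))

theorem sum_inl (M1 : DT A rA B rB Q1) (M2 : DT A rA B rB Q2) (s : RTree A rA) (q : Q1) :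
    (sumDT M1 M2).run s (Sum.inl q) = M1.run s q := by
  induction s generalizing q with
  | mk a f ih =>
    simp only [DT.run, sumDT]
    cases M1.rule q a with
    | none => rfl
    | some ζ =>
      simp only [Option.map_some, Option.bind_some, subst_bnd]
      congr 1
      funext p
      exact ih _ _

theorem sum_inr (M1 : DT A rA B rB Q1) (M2 : DT A rA B rB Q2) (s : RTree A rA) (q : Q2) :
    (sumDT M1 M2).run s (Sum.inr q) = M2.run s q := by
  induction s generalizing q with
  | mk a f ih =>
    simp only [DT.run, sumDT]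
    cases M2.rule q a with
    | none => rfl
    | some ζ =>
      simp only [Option.map_some, Option.bind_some, subst_bnd]
      congr 1
      funext p
      exact ih _ _

end Trans

theorem height_bound :
    ∀ (A : Type) (rA : A → ℕ) (B : Type) (rB : B → ℕ) (n₁ n₂ : ℕ)
      (M₁ : DT A rA B rB (Fin n₁)) (M₂ : DT A rA B rB (Fin n₂)),
      (∀ s : RTree A rA, s.depth ≤ 2 ^ (n₁ + n₂) * (n₁ + n₂ + 1) →
        M₁.run s M₁.init = M₂.run s M₂.init) →
      ∀ s : RTree A rA, M₁.run s M₁.init = M₂.run s M₂.init := by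
  intro A rA B rB n₁ n₂ M₁ M₂ h s
  rw [← sum_inl M₁ M₂, ← sum_inr M₁ M₂]
  apply two_states
  intro u hu
  rw [sum_inl, sum_inr]
  apply h
  simpa using hu

end Pool.Agent.P.MP_460c01_lc
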