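import Pool.Agent.P.MP_460c01_lc.Main

namespace Pool.Agent.P.MP_460c01_lc

theorem chain_stab {X : Type} [Finite X] (P : ℕ → Set X) (hP : ∀ k, P k ⊆ P (k + 1)) :
    ∃ k ≤ Nat.card X, P (k + 1) ⊆ P k := by
  by_contra hcon
  push Not at hcon
  have : ∀ k, k ≤ Nat.card X + 1 → k ≤ (P k).ncard := by
    intro k
    induction k with
    | zero => intro _; exact Nat.zero_le _
    | succ k ih =>
      intro hk
      have h1 := ih (by omega)
      have h2 : (P k).ncard < (P (k + 1)).ncard :=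
        Set.ncard_lt_ncard ⟨hP k, hcon k (by omega)⟩ (Set.toFinite _)
      omega
  have h1 := this _ le_rfl
  have h2 : (P (Nat.card X + 1)).ncard ≤ Nat.card X := Set.ncard_le_card _
  omega

/-- a deterministic top-down tree automaton -/
structure TA (A : Type) (rA : A → ℕ) (X : Type) : Type where
  ok : X → A → Prop
  nx : X → (a : A) → Fin (rA a) → X

variable {A : Type} {rA : A → ℕ} {B : Type} {rB : B → ℕ} {Q X Y : Type}

def TA.L (T : TA A rA X) : RTree A rA → X → Prop
  | WType.mk a f, x => T.ok x a ∧ ∀ j, TA.L T (f j) (T.nx x a j)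

theorem TA.small [Finite X] (T : TA A rA X) (s : RTree A rA) (x : X) (h : T.L s x) :
    ∃ u : RTree A rA, u.depth ≤ Nat.card X ∧ T.L u x := by
  obtain ⟨k, hk, hs⟩ := chain_stab (fun k => {x | ∃ u : RTree A rA, u.depth ≤ k ∧ T.L u x})
    (fun k x ⟨u, h1, h2⟩ => ⟨u, by omega, h2⟩)
  suffices ∃ u : RTree A rA, u.depth ≤ k ∧ T.L u x by
    obtain ⟨u, h1, h2⟩ := this
    exact ⟨u, h1.trans hk, h2⟩
  induction s generalizing x with
  | mk a f ih =>
    choose g h1 h2 using fun j => ih j _ (h.2 j)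
    exact hs ⟨WType.mk a g, depth_mk_le h1, h.1, h2⟩

def TA.Ag (T : TA A rA X) (h : ℕ) (x y : X) : Prop :=
  ∀ s : RTree A rA, s.depth ≤ h → (T.L s x ↔ T.L s y)

theorem TA.upd (T : TA A rA X) {a : A} {g : Fin (rA a) → RTree A rA} {x : X}
    (h : T.L (WType.mk a g) x) {j : Fin (rA a)} {t : RTree A rA} (ht : T.L t (T.nx x a j)) :
    T.L (WType.mk a (Function.update g j t)) x := by
  refine ⟨h.1, fun i => ?_⟩
  by_cases c : i = j
  · rw [c, Function.update_self]; exact ht
  · rw [Function.update_of_ne c]; exact h.2 i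

theorem depth_upd {a : A} {g : Fin (rA a) → RTree A rA} {h : ℕ} (hg : ∀ i, (g i).depth ≤ h)
    (j : Fin (rA a)) {t : RTree A rA} (ht : t.depth ≤ h) :
    (WType.mk (β := fun a : A => Fin (rA a)) a (Function.update g j t)).depth ≤ h + 1 := by
  refine depth_mk_le fun i => ?_
  by_cases c : i = j
  · rw [c, Function.update_self]; exact ht
  · rw [Function.update_of_ne c]; exact hg i

theorem TA.down (T : TA A rA X) {h : ℕ} {x y : X} (hag : T.Ag (h + 1) x y) {a : A}
    {g : Fin (rA a) → RTree A rA} (hg : ∀ i, (g i).depth ≤ h) (hx : T.L (WType.mk a g) x)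
    (j : Fin (rA a)) : T.Ag h (T.nx x a j) (T.nx y a j) := by
  have hy := (hag _ (depth_mk_le hg)).1 hx
  intro t ht
  constructor
  · intro h1
    have := ((hag _ (depth_upd hg j ht)).1 (T.upd hx h1)).2 j
    rwa [Function.update_self] at this
  · intro h1
    have := ((hag _ (depth_upd hg j ht)).2 (T.upd hy h1)).2 j
    rwa [Function.update_self] at this

theorem TA.moore [Finite X] (T : TA A rA X) {x y : X} (hag : T.Ag (2 * Nat.card X) x y)
    (s : RTree A rA) (hs : T.L s x) : T.L s y := by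
  obtain ⟨r, hr⟩ := exists_injective_nat X
  have mono : ∀ {h h' : ℕ} {x y : X}, h ≤ h' → T.Ag h' x y → T.Ag h x y :=
    fun hh H s hs => H s (hs.trans hh)
  obtain ⟨k, hk, hst⟩ := chain_stab (fun k => {x | ∀ y, T.Ag (Nat.card X + k) x y → r x ≤ r y})
    (fun k x hx y hy => hx y (mono (by omega) hy))
  have rep : ∀ x, ∃ x', T.Ag (Nat.card X + (k + 1)) x x' ∧
      ∀ y, T.Ag (Nat.card X + k) x' y → r x' ≤ r y := by
    intro x
    obtain ⟨x', h1, h2⟩ := Set.exists_min_image {z | T.Ag (Nat.card X + (k + 1)) x z} r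
      (Set.toFinite _) ⟨x, fun _ _ => Iff.rfl⟩
    exact ⟨x', h1, hst fun y hy => h2 y fun s hs => (h1 s hs).trans (hy s hs)⟩
  have up : ∀ x y, T.Ag (Nat.card X + k) x y → T.Ag (Nat.card X + k + 1) x y := by
    intro x y H
    obtain ⟨x', h1, h2⟩ := rep x
    obtain ⟨y', h3, h4⟩ := rep y
    have h5 : T.Ag (Nat.card X + k) x' y' := fun s hs =>
      (h1 s (by omega)).symm.trans ((H s hs).trans (h3 s (by omega)))
    have h6 : x' = y' := hr (le_antisymm (h2 _ h5) (h4 _ fun s hs => (h5 s hs).symm))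
    exact fun s hs => (h1 s hs).trans (h6 ▸ (h3 s hs).symm)
  replace hag : T.Ag (Nat.card X + k) x y := mono (by omega) hag
  induction s generalizing x y with
  | mk a f ih =>
    choose g h1 h2 using fun j => T.small _ _ (hs.2 j)
    have h3 : ∀ i, (g i).depth ≤ Nat.card X + k := fun i => (h1 i).trans (by omega)
    have h4 : T.L (WType.mk a g) x := ⟨hs.1, h2⟩
    exact ⟨((up _ _ hag _ (depth_mk_le h3)).1 h4).1,
      fun j => ih j (hs.2 j) (T.down (up _ _ hag) h3 h4 j)⟩

def TA.sum (T : TA A rA X) (U : TA A rA Y) : TA A rA (X ⊕ Y) where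
  ok := fun z a => z.elim (fun x => T.ok x a) (fun y => U.ok y a)
  nx := fun z a j => z.map (fun x => T.nx x a j) (fun y => U.nx y a j)

theorem TA.sum_l (T : TA A rA X) (U : TA A rA Y) (s : RTree A rA) (x : X) :
    (T.sum U).L s (Sum.inl x) ↔ T.L s x := by
  induction s generalizing x with
  | mk a f ih => exact and_congr Iff.rfl (forall_congr' fun j => ih j _)

theorem TA.sum_r (T : TA A rA X) (U : TA A rA Y) (s : RTree A rA) (y : Y) :
    (T.sum U).L s (Sum.inr y) ↔ U.L s y := by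
  induction s generalizing y with
  | mk a f ih => exact and_congr Iff.rfl (forall_congr' fun j => ih j _)

def Rhs.Occ {Z : Type} (z : Z) : Rhs B rB Z → Prop
  | .var x => x = z
  | .node _ g => ∃ i, Rhs.Occ z (g i)

theorem subst_isSome_iff {Z : Type} (ρ : Z → Option (RTree B rB)) (t : Rhs B rB Z) :
    (t.subst ρ).isSome ↔ ∀ z, t.Occ z → (ρ z).isSome := by
  induction t with
  | var x => exact ⟨fun h z hz => hz ▸ h, fun h => h x rfl⟩
  | node b g ih =>
    simp only [Rhs.subst, Rhs.Occ]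
    split_ifs with h
    · exact ⟨fun _ z ⟨i, hi⟩ => (ih i).1 (h i) z hi, fun _ => rfl⟩
    · exact ⟨fun h1 => absurd h1 (by simp),
        fun h1 => absurd (fun i => (ih i).2 fun z hz => h1 z ⟨i, hz⟩) h⟩

/-- the subset automaton of the domain -/
def DT.dom (M : DT A rA B rB Q) : TA A rA (Set Q) where
  ok := fun S a => ∀ q ∈ S, (M.rule q a).isSome
  nx := fun S a j => {p | ∃ q ∈ S, ∃ ζ, M.rule q a = some ζ ∧ ζ.Occ (p, j)}

theorem DT.dom_L (M : DT A rA B rB Q) (s : RTree A rA) (S : Set Q) :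
    M.dom.L s S ↔ ∀ q ∈ S, (M.run s q).isSome := by
  induction s generalizing S with
  | mk a f ih =>
    simp only [TA.L, ih, DT.run]
    constructor
    · rintro ⟨h1, h2⟩ q hq
      obtain ⟨ζ, hζ⟩ := Option.isSome_iff_exists.1 (h1 q hq)
      rw [hζ, Option.bind_some, subst_isSome_iff]
      exact fun z hz => h2 z.2 z.1 ⟨q, hq, ζ, hζ, hz⟩
    · intro h
      refine ⟨fun q hq => ?_, ?_⟩
      · have := h q hq
        cases c : M.rule q a with
        | none => rw [c] at this; exact absurd this (by simp)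
        | some ζ => rfl
      · rintro j p ⟨q, hq, ζ, hζ, hz⟩
        have := h q hq
        rw [hζ, Option.bind_some, subst_isSome_iff] at this
        exact this _ hz

theorem dom_eq {Q1 Q2 : Type} [Fintype Q1] [Fintype Q2] (M1 : DT A rA B rB Q1)
    (M2 : DT A rA B rB Q2) (q1 : Q1) (q2 : Q2)
    (h : ∀ s : RTree A rA, s.depth ≤ 2 * (2 ^ Fintype.card Q1 + 2 ^ Fintype.card Q2) →
      M1.run s q1 = M2.run s q2) (s : RTree A rA) (hs : (M2.run s q2).isSome) :
    (M1.run s q1).isSome := by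
  have := (M1.dom.sum M2.dom).moore (x := Sum.inr {q2}) (y := Sum.inl {q1}) (fun u hu => by
    rw [TA.sum_l, TA.sum_r, DT.dom_L, DT.dom_L]
    simp only [Set.mem_singleton_iff, forall_eq]
    rw [h u (by simpa [Nat.card_sum] using hu)]) s (by
    rw [TA.sum_r, DT.dom_L]
    simpa using hs)
  rw [TA.sum_l, DT.dom_L] at this
  exact this q1 rfl

def Ws (T : TA A rA X) (M : DT A rA B rB Q) (h : ℕ) (x : X) : Set (Q → Rhs B rB Unit) :=
  {w | ∃ s, s.depth ≤ h ∧ T.L s x ∧ tot M s = w}

theorem Ws_mono (T : TA A rA X) (M : DT A rA B rB Q) (h : ℕ) (x : X) :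
    Ws T M h x ⊆ Ws T M (h + 1) x := by
  rintro w ⟨s, h1, h2, h3⟩
  exact ⟨s, by omega, h2, h3⟩

def Sw (T : TA A rA X) (M : DT A rA B rB Q) (h : ℕ) : Prop :=
  ∀ x, ((Ws T M (h + 1) x).Nonempty → (Ws T M h x).Nonempty) ∧
    ∀ t t', Eqn (Ws T M h x) t t' → Eqn (Ws T M (h + 1) x) t t'

theorem stable2 (T : TA A rA X) (M : DT A rA B rB Q) {h : ℕ} (hst : Sw T M h) (s : RTree A rA)
    (x : X) (hs : T.L s x) : (Ws T M h x).Nonempty ∧
      ∀ t t', Eqn (Ws T M h x) t t' → ev (tot M s) t = ev (tot M s) t' := by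
  induction s generalizing x with
  | mk a f ih =>
    have key : ∀ t t', Eqn (Ws T M (h + 1) x) t t' →
        ∀ I : Finset (Fin (rA a)), ∀ g : Fin (rA a) → RTree A rA,
          T.L (WType.mk a g) x → (∀ i ∈ I, g i = f i) → (∀ i ∉ I, (g i).depth ≤ h) →
          ev (tot M (WType.mk a g)) t = ev (tot M (WType.mk a g)) t' := by
      intro t t' he I
      induction I using Finset.induction_on with
      | empty =>
        intro g h1 _ h3
        exact he _ ⟨WType.mk a g, depth_mk_le (fun i => h3 i (by simp)), h1, rfl⟩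
      | insert j I hj ihI =>
        intro g h1 h2 h3
        obtain ⟨tj, htj⟩ := one_child M a g j t
        obtain ⟨tj', htj'⟩ := one_child M a g j t'
        have e : Eqn (Ws T M h (T.nx x a j)) tj tj' := by
          rintro w ⟨s, s1, s2, rfl⟩
          rw [htj, htj']
          apply ihI _ (T.upd h1 s2)
          · intro i hi
            have c : i ≠ j := fun c => hj (c ▸ hi)
            rw [Function.update_of_ne c]; exact h2 i (Finset.mem_insert_of_mem hi)
          · intro i hi
            by_cases c : i = j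
            · rw [c, Function.update_self]; exact s1
            · rw [Function.update_of_ne c]; exact h3 i (by simp [c, hi])
        have e2 := (ih j _ (hs.2 j)).2 tj tj' e
        rw [htj, htj', ← h2 j (Finset.mem_insert_self _ _), Function.update_eq_self] at e2
        exact e2
    have hg : ∀ i, ∃ s : RTree A rA, s.depth ≤ h ∧ T.L s (T.nx x a i) := by
      intro i
      obtain ⟨w, s, h1, h2, _⟩ := (ih i _ (hs.2 i)).1
      exact ⟨s, h1, h2⟩
    constructor
    · apply (hst _).1
      choose g h1 h2 using hg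
      exact ⟨_, WType.mk a g, depth_mk_le h1, ⟨hs.1, h2⟩, rfl⟩
    · intro t t' he
      exact key t t' ((hst _).2 t t' he) Finset.univ f hs (fun _ _ => rfl)
        (fun i hi => absurd (Finset.mem_univ i) hi)

theorem exists_Sw [Fintype X] [Fintype Q] (T : TA A rA X) (M : DT A rA B rB Q) :
    ∃ h ≤ Fintype.card X * (Fintype.card Q + 1), Sw T M h := by
  classical
  let Φ : ℕ → ℕ := fun h => ∑ x : X, pot (Ws T M h x)
  have hΦ : ∀ h, Φ h ≤ Fintype.card X * (Fintype.card Q + 1) := by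
    intro h
    have := Finset.sum_le_card_nsmul Finset.univ (fun x : X => pot (Ws T M h x))
      (Fintype.card Q + 1) (fun D _ => pot_le _)
    simpa using this
  by_contra hcon
  push Not at hcon
  have step : ∀ h, ¬ Sw T M h → Φ h < Φ (h + 1) := by
    intro h hs
    unfold Sw at hs
    rw [not_forall] at hs
    obtain ⟨D, hD⟩ := hs
    apply Finset.sum_lt_sum (fun D _ => pot_mono (Ws_mono T M h D))
    refine ⟨D, Finset.mem_univ _, ?_⟩
    by_contra hle
    apply hD
    rw [not_lt] at hle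
    unfold pot at hle
    by_cases c : (Ws T M h D).Nonempty
    · refine ⟨fun _ => c, fun t t' he => ?_⟩
      rw [if_pos c, if_pos (c.mono (Ws_mono T M h D))] at hle
      exact eqn_of_rnk (Ws_mono T M h D) c (by omega) he
    · rw [if_neg c] at hle
      have c' : ¬ (Ws T M (h + 1) D).Nonempty := by
        intro c'
        rw [if_pos c'] at hle
        omega
      exact ⟨fun x => absurd x c', fun t t' _ w hw => absurd ⟨w, hw⟩ c'⟩
  have : ∀ h, h ≤ Fintype.card X * (Fintype.card Q + 1) + 1 → h ≤ Φ h := by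
    intro h
    induction h with
    | zero => intro _; exact Nat.zero_le _
    | succ h ih =>
      intro hh
      have := ih (by omega)
      have := step h (hcon h (by omega))
      omega
  have h1 := this _ le_rfl
  have h2 := hΦ (Fintype.card X * (Fintype.card Q + 1) + 1)
  omega

theorem out_eq {Q1 Q2 : Type} [Fintype Q1] [Fintype Q2] (M1 : DT A rA B rB Q1)
    (M2 : DT A rA B rB Q2) (q1 : Q1) (q2 : Q2)
    (hag : ∀ s : RTree A rA,
      s.depth ≤ 2 ^ Fintype.card Q1 * (Fintype.card Q1 + Fintype.card Q2 + 1) →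
      M1.run s q1 = M2.run s q2) (s : RTree A rA) (hs : (M1.run s q1).isSome) :
    M1.run s q1 = M2.run s q2 := by
  classical
  obtain ⟨h, hh, hst⟩ := exists_Sw M1.dom (sumDT M1 M2)
  rw [Fintype.card_set, Fintype.card_sum] at hh
  have e : Eqn (Ws M1.dom (sumDT M1 M2) h {q1}) (.var (some (Sum.inl q1)))
      (.var (some (Sum.inr q2))) := by
    rintro w ⟨u, u1, u2, rfl⟩
    obtain ⟨t, ht⟩ := Option.isSome_iff_exists.1 ((M1.dom_L _ _).1 u2 q1 rfl)
    have ht' : M2.run u q2 = some t := by rw [← hag u (u1.trans hh), ht]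
    rw [← sum_inl M1 M2, run_eq] at ht
    rw [← sum_inr M1 M2, run_eq] at ht'
    show tot _ u (Sum.inl q1) = tot _ u (Sum.inr q2)
    rw [eq_emb _ _ ht, eq_emb _ _ ht']
  have : tot (sumDT M1 M2) s (Sum.inl q1) = tot (sumDT M1 M2) s (Sum.inr q2) :=
    (stable2 _ _ hst s {q1} ((M1.dom_L _ _).2 fun q hq => hq ▸ hs)).2 _ _ e
  rw [← sum_inl M1 M2, ← sum_inr M1 M2, run_eq, run_eq, this]

theorem upper_le {n₁ n₂ : ℕ} (hn : n₁ ≤ n₂) (M₁ : DT A rA B rB (Fin n₁))
    (M₂ : DT A rA B rB (Fin n₂))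
    (hag : ∀ s : RTree A rA, s.depth ≤ 4 * (2 ^ n₂ + n₁ * 2 ^ n₁) →
      M₁.run s M₁.init = M₂.run s M₂.init) (s : RTree A rA) :
    M₁.run s M₁.init = M₂.run s M₂.init := by
  have h1 : 2 ^ n₁ ≤ 2 ^ n₂ := Nat.pow_le_pow_right (by norm_num) hn
  by_cases c : (M₁.run s M₁.init).isSome
  · refine out_eq M₁ M₂ _ _ (fun u hu => hag u (hu.trans ?_)) s c
    simp only [Fintype.card_fin]
    obtain ⟨d, rfl⟩ := Nat.exists_eq_add_of_le hn
    have h2 : d + 1 ≤ 2 ^ d := Nat.lt_two_pow_self
    have h3 : 2 ^ n₁ * (d + 1) ≤ 2 ^ (n₁ + d) := by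
      rw [pow_add]; exact Nat.mul_le_mul_left _ h2
    have h4 : 2 ^ n₁ * (n₁ + (n₁ + d) + 1) = 2 * (n₁ * 2 ^ n₁) + 2 ^ n₁ * (d + 1) := by ring
    omega
  · have c' : ¬ (M₂.run s M₂.init).isSome := fun c' => c (dom_eq M₁ M₂ _ _
      (fun u hu => hag u (hu.trans (by simp only [Fintype.card_fin]; omega))) s c')
    rw [Option.not_isSome_iff_eq_none] at c c'
    rw [c, c']

end Pool.Agent.P.MP_460c01_lc
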