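import Pool.Agent.P.MP_460c01_lc.Main

open Pool.Agent.P.MP_460c01_lc

theorem Pool.Agent.P.MP_460c01_lc.VariantHeightBound.result :
    ∀ (A : Type) (rA : A → ℕ) (B : Type) (rB : B → ℕ) (n₁ n₂ : ℕ)
      (M₁ : DT A rA B rB (Fin n₁)) (M₂ : DT A rA B rB (Fin n₂)),
      (∀ s : RTree A rA, s.depth ≤ 2 ^ (n₁ + n₂) * (n₁ + n₂ + 1) →
        M₁.run s M₁.init = M₂.run s M₂.init) →
      ∀ s : RTree A rA, M₁.run s M₁.init = M₂.run s M₂.init :=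
  Pool.Agent.P.MP_460c01_lc.height_bound
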